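import Pool.Agent.Central.Defs

/-!
# Central, module Marg: elementary facts on marginals

`marg U W p s` is the sum of `p A` over the subsets `A` of `U` with `A ∩ W = s`.
Also: `ent` and `conv` on `W` only depend on the values on the subsets of `W`.
-/

set_option autoImplicit false

namespace Pool.Agent.Central

open Finset

variable {P : Type} [PartialOrder P]

theorem marg_nonneg (U W : Finset P) (p : Finset P → ℝ) (hp : ∀ A, 0 ≤ p A) (s : Finset P) :
    0 ≤ marg U W p s := by
  unfold marg
  exact Finset.sum_nonneg (fun A _ => hp A)

theorem marg_self (U : Finset P) (p : Finset P → ℝ) (s : Finset P) (hs : s ∈ U.powerset) :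
    marg U U p s = p s := by
  classical
  unfold marg
  rw [Finset.sum_eq_single_of_mem s]
  · rw [Finset.mem_filter]
    refine ⟨hs, ?_⟩
    exact Finset.inter_eq_left.mpr (Finset.mem_powerset.mp hs)
  · intro A hA hne
    rw [Finset.mem_filter] at hA
    exfalso
    apply hne
    rw [← hA.2]
    exact (Finset.inter_eq_left.mpr (Finset.mem_powerset.mp hA.1)).symm

open scoped Classical in
/-- splitting according to whether `i ∈ A` -/
theorem marg_insert (U W : Finset P) (i : P) (hi : i ∉ W) (p : Finset P → ℝ) (s : Finset P)
    (hs : s ∈ W.powerset) :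
    marg U W p s = marg U (insert i W) p s + marg U (insert i W) p (insert i s) := by
  have his : i ∉ s := fun h => hi (Finset.mem_powerset.mp hs h)
  unfold marg
  rw [← Finset.sum_union]
  · apply Finset.sum_congr _ (fun _ _ => rfl)
    ext A
    simp only [Finset.mem_union, Finset.mem_filter]
    constructor
    · rintro ⟨hA, h⟩
      by_cases hiA : i ∈ A
      · right
        refine ⟨hA, ?_⟩
        rw [Finset.inter_insert_of_mem hiA, h]
      · left
        refine ⟨hA, ?_⟩
        rw [Finset.inter_insert_of_notMem hiA, h]
    · rintro (⟨hA, h⟩ | ⟨hA, h⟩)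
      · refine ⟨hA, ?_⟩
        have hiA : i ∉ A := by
          intro hiA
          apply his
          rw [← h]
          exact Finset.mem_inter.mpr ⟨hiA, Finset.mem_insert_self i W⟩
        rw [Finset.inter_insert_of_notMem hiA] at h
        exact h
      · refine ⟨hA, ?_⟩
        have hiA : i ∈ A := by
          have : i ∈ A ∩ insert i W := by
            rw [h]; exact Finset.mem_insert_self i s
          exact (Finset.mem_inter.mp this).1
        rw [Finset.inter_insert_of_mem hiA] at h
        have h1 : i ∉ A ∩ W := fun h2 => hi (Finset.mem_inter.mp h2).2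
        calc A ∩ W = (insert i (A ∩ W)).erase i := (Finset.erase_insert h1).symm
          _ = (insert i s).erase i := by rw [h]
          _ = s := Finset.erase_insert his
  · rw [Finset.disjoint_left]
    intro A hA hB
    rw [Finset.mem_filter] at hA hB
    apply his
    rw [← hA.2, hB.2]
    exact Finset.mem_insert_self i s

theorem marg_sum (U W : Finset P) (p : Finset P → ℝ) :
    ∑ s ∈ W.powerset, marg U W p s = ∑ A ∈ U.powerset, p A := by
  classical
  unfold marg
  exact Finset.sum_fiberwise_of_maps_to
    (fun A _ => Finset.mem_powerset.mpr Finset.inter_subset_right) p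

open scoped Classical in
/-- the mass of the sets containing `i` -/
theorem marg_mass (U W : Finset P) (i : P) (hi : i ∉ W) (p : Finset P → ℝ) :
    ∑ s ∈ W.powerset, marg U (insert i W) p (insert i s) =
      ∑ A ∈ U.powerset.filter (fun A => i ∈ A), p A := by
  rw [← Finset.sum_fiberwise_of_maps_to (s := U.powerset.filter (fun A => i ∈ A))
    (t := W.powerset) (g := fun A => A ∩ W)
    (fun A _ => Finset.mem_powerset.mpr Finset.inter_subset_right) p]
  apply Finset.sum_congr rfl
  intro s hs
  have his : i ∉ s := fun h => hi (Finset.mem_powerset.mp hs h)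
  unfold marg
  apply Finset.sum_congr _ (fun _ _ => rfl)
  ext A
  simp only [Finset.mem_filter]
  constructor
  · rintro ⟨hA, h⟩
    have hiA : i ∈ A := by
      have : i ∈ A ∩ insert i W := by
        rw [h]; exact Finset.mem_insert_self i s
      exact (Finset.mem_inter.mp this).1
    refine ⟨⟨hA, hiA⟩, ?_⟩
    rw [Finset.inter_insert_of_mem hiA] at h
    have h1 : i ∉ A ∩ W := fun h2 => hi (Finset.mem_inter.mp h2).2
    calc A ∩ W = (insert i (A ∩ W)).erase i := (Finset.erase_insert h1).symm
      _ = (insert i s).erase i := by rw [h]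
      _ = s := Finset.erase_insert his
  · rintro ⟨⟨hA, hiA⟩, h⟩
    refine ⟨hA, ?_⟩
    rw [Finset.inter_insert_of_mem hiA, h]

theorem ent_congr (W : Finset P) (f g : Finset P → ℝ) (h : ∀ s ∈ W.powerset, f s = g s) :
    ent W f = ent W g := by
  unfold ent
  exact Finset.sum_congr rfl (fun s hs => by rw [h s hs])

theorem conv_congr (W : Finset P) (f g : Finset P → ℝ) (h : ∀ s ∈ W.powerset, f s = g s)
    (c : Finset P) : conv W f c = conv W g c := by
  classical
  unfold conv
  apply Finset.sum_congr rfl
  intro q hq
  rw [Finset.mem_filter, Finset.mem_product] at hq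
  rw [h _ hq.1.1, h _ hq.1.2]

theorem conv_nonneg (W : Finset P) (f : Finset P → ℝ) (h : ∀ s, 0 ≤ f s) (c : Finset P) :
    0 ≤ conv W f c := by
  classical
  unfold conv
  exact Finset.sum_nonneg (fun q _ => mul_nonneg (h _) (h _))

end Pool.Agent.Central
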