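import Pool.Agent.Central.Defs

/-!
# Central, module PairB: the pair inequality for non-maximal elements

`g` is a probability vector on `T`, `X s ∈ [0, 1]`, and the mass of the indices with `X s ≠ 1` is at
most `δ`.  Then `∑ s, ∑ t, g s * g t * h (X s * X t) ≥ 2 * (1 - δ) * ∑ s, g s * h (X s)`.

Paper proof.  Keep only the pairs with exactly one of `X s, X t` equal to `1` (all terms are `≥ 0`):
`∑_{t : X t = 1} g t ≥ 1 - δ`, for those `h (X s * X t) = h (X s)`, and `h (X s) = 0` if `X s = 1`, so the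
sum over `(s, t)` with `X t = 1` is `(∑_{X t = 1} g t) * ∑ g s * h (X s) ≥ (1 - δ) * ∑ g s * h (X s)`, the
same for `X s = 1`, and the overlap `X s = X t = 1` contributes `0`.  Pointwise:
`h (X s * X t) ≥ 1_{X t = 1} * h (X s) + 1_{X s = 1} * h (X t)`.
-/

set_option autoImplicit false

namespace Pool.Agent.Central

open Finset

open scoped Classical in
theorem pairB {ι : Type} (T : Finset ι) (g X : ι → ℝ) (δ : ℝ) (hg : ∀ s ∈ T, 0 ≤ g s)
    (hsum : ∑ s ∈ T, g s = 1) (hX0 : ∀ s ∈ T, 0 ≤ X s) (hX1 : ∀ s ∈ T, X s ≤ 1)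
    (hδ : ∑ s ∈ T.filter (fun s => X s ≠ 1), g s ≤ δ) :
    2 * (1 - δ) * ∑ s ∈ T, g s * Real.binEntropy (X s) ≤
      ∑ s ∈ T, ∑ t ∈ T, g s * g t * Real.binEntropy (X s * X t) := by
  set H : ℝ := ∑ s ∈ T, g s * Real.binEntropy (X s) with hH
  set M : ℝ := ∑ s ∈ T, g s * (if X s = 1 then (1 : ℝ) else 0) with hM
  have hH0 : 0 ≤ H := Finset.sum_nonneg fun s hs =>
    mul_nonneg (hg s hs) (Real.binEntropy_nonneg (hX0 s hs) (hX1 s hs))
  have hM1 : 1 - δ ≤ M := by
    have h1 : ∑ s ∈ T, g s = M + ∑ s ∈ T.filter (fun s => X s ≠ 1), g s := by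
      rw [Finset.sum_filter, hM, ← Finset.sum_add_distrib]
      refine Finset.sum_congr rfl fun s _ => ?_
      by_cases h : X s = 1
      · simp [h]
      · simp [h]
    linarith
  have hpt : ∀ s ∈ T, ∀ t ∈ T,
      (if X t = 1 then (1 : ℝ) else 0) * Real.binEntropy (X s) +
        (if X s = 1 then (1 : ℝ) else 0) * Real.binEntropy (X t) ≤
          Real.binEntropy (X s * X t) := by
    intro s hs t ht
    by_cases h1 : X t = 1
    · by_cases h2 : X s = 1
      · simp [h1, h2]
      · simp [h1, h2]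
    · by_cases h2 : X s = 1
      · simp [h1, h2]
      · simp only [h1, h2, if_false, zero_mul, add_zero]
        exact Real.binEntropy_nonneg (mul_nonneg (hX0 s hs) (hX0 t ht))
          (mul_le_one₀ (hX1 s hs) (hX0 t ht) (hX1 t ht))
  have hsumeq : ∑ s ∈ T, ∑ t ∈ T, g s * g t *
      ((if X t = 1 then (1 : ℝ) else 0) * Real.binEntropy (X s) +
        (if X s = 1 then (1 : ℝ) else 0) * Real.binEntropy (X t)) = 2 * M * H := by
    have e1 : ∑ s ∈ T, ∑ t ∈ T, g s * g t *
        ((if X t = 1 then (1 : ℝ) else 0) * Real.binEntropy (X s)) = H * M := by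
      rw [hH, hM, Finset.sum_mul_sum]
      refine Finset.sum_congr rfl fun s _ => Finset.sum_congr rfl fun t _ => ?_
      ring
    have e2 : ∑ s ∈ T, ∑ t ∈ T, g s * g t *
        ((if X s = 1 then (1 : ℝ) else 0) * Real.binEntropy (X t)) = M * H := by
      rw [hH, hM, Finset.sum_mul_sum]
      refine Finset.sum_congr rfl fun s _ => Finset.sum_congr rfl fun t _ => ?_
      ring
    simp only [mul_add, Finset.sum_add_distrib]
    rw [e1, e2]
    ring
  calc 2 * (1 - δ) * H ≤ 2 * M * H := by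
        exact mul_le_mul_of_nonneg_right (by linarith) hH0
    _ = _ := hsumeq.symm
    _ ≤ _ := by
        refine Finset.sum_le_sum fun s hs => Finset.sum_le_sum fun t ht => ?_
        exact mul_le_mul_of_nonneg_left (hpt s hs t ht) (mul_nonneg (hg s hs) (hg t ht))

end Pool.Agent.Central
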