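import Pool.Agent.Central.Defs

/-!
# Central, module Step: one step of the chain rule

`f ≥ 0` is a weight function on the subsets of `insert i W` (`i ∉ W`), `g s = f s + f (insert i s)` its
marginal on the subsets of `W`.

Paper proof.  The subsets of `insert i W` are the `s` and the `insert i s`, `s ⊆ W`
(`Finset.sum_powerset_insert`).
(1) `negMulLog a + negMulLog b = negMulLog (a + b) + (a + b) * binEntropy (a / (a + b))` for `a, b ≥ 0`
(both sides `0` if `a + b = 0`).  This gives `step_ent`.
(2) Write `F = conv (insert i W) f`, `G = conv W g`.  For `c ⊆ W`: `F c = ∑_{s ∪ t = c} f s * f t` over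
`s, t ⊆ W` (if `i ∉ c` then `i ∉ s, t`), and `F c + F (insert i c) = G c` (group the pairs `(s', t')` with
`s' ∪ t' ∈ {c, insert i c}` by `(s' \ {i}, t' \ {i})`).
With `ψ x y = y * binEntropy (x / y)` (which is `0` for `y = 0`) we have the superadditivity
`ψ (∑ x_j) (∑ y_j) ≥ ∑ ψ x_j y_j` for `0 ≤ x_j ≤ y_j` (Jensen for the concave function `binEntropy`, weights
`y_j / ∑ y_j`), hence for `c ⊆ W`
`negMulLog (F c) + negMulLog (F (insert i c)) = negMulLog (G c) + ψ (F c) (G c)`
`≥ negMulLog (G c) + ∑_{s ∪ t = c} ψ (f s * f t) (g s * g t)`, and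
`ψ (f s * f t) (g s * g t) = g s * g t * binEntropy ((f s / g s) * (f t / g t))`.  Sum over `c ⊆ W`
(every pair `(s, t)` of subsets of `W` has exactly one `c = s ∪ t`).
-/

set_option autoImplicit false

namespace Pool.Agent.Central

open Finset

variable {P : Type} [PartialOrder P]

theorem step_key (a b : ℝ) (ha : 0 ≤ a) (hb : 0 ≤ b) :
    Real.negMulLog a + Real.negMulLog b =
      Real.negMulLog (a + b) + (a + b) * Real.binEntropy (a / (a + b)) := by
  rcases (add_nonneg ha hb).eq_or_lt with h | h
  · have ha0 : a = 0 := by linarith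
    have hb0 : b = 0 := by linarith
    subst ha0
    subst hb0
    simp
  · have h1 : a = (a + b) * (a / (a + b)) := by field_simp
    have h2 : b = (a + b) * (1 - a / (a + b)) := by field_simp; ring
    have e1 : Real.negMulLog a = (a / (a + b)) * Real.negMulLog (a + b) +
        (a + b) * Real.negMulLog (a / (a + b)) := by
      conv_lhs => rw [h1]
      rw [Real.negMulLog_mul]
    have e2 : Real.negMulLog b = (1 - a / (a + b)) * Real.negMulLog (a + b) +
        (a + b) * Real.negMulLog (1 - a / (a + b)) := by
      conv_lhs => rw [h2]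
      rw [Real.negMulLog_mul]
    rw [Real.binEntropy_eq_negMulLog_add_negMulLog_one_sub, e1, e2]
    ring

theorem step_super2 (x1 y1 x2 y2 : ℝ) (h1 : 0 ≤ x1) (h1' : x1 ≤ y1) (h2 : 0 ≤ x2) (h2' : x2 ≤ y2) :
    y1 * Real.binEntropy (x1 / y1) + y2 * Real.binEntropy (x2 / y2) ≤
      (y1 + y2) * Real.binEntropy ((x1 + x2) / (y1 + y2)) := by
  have hy1 : 0 ≤ y1 := h1.trans h1'
  have hy2 : 0 ≤ y2 := h2.trans h2'
  rcases (add_nonneg hy1 hy2).eq_or_lt with h | h
  · have ha0 : y1 = 0 := by linarith
    have hb0 : y2 = 0 := by linarith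
    subst ha0
    subst hb0
    simp
  · have hc := Real.strictConcave_binEntropy.concaveOn
    have m1 : x1 / y1 ∈ Set.Icc (0 : ℝ) 1 := ⟨div_nonneg h1 hy1, div_le_one_of_le₀ h1' hy1⟩
    have m2 : x2 / y2 ∈ Set.Icc (0 : ℝ) 1 := ⟨div_nonneg h2 hy2, div_le_one_of_le₀ h2' hy2⟩
    have hj := hc.2 m1 m2 (div_nonneg hy1 h.le) (div_nonneg hy2 h.le)
      (by rw [← add_div]; exact div_self h.ne')
    have e1 : y1 / (y1 + y2) * (x1 / y1) = x1 / (y1 + y2) := by
      rcases hy1.eq_or_lt with hz | hz
      · have : x1 = 0 := by linarith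
        rw [this]; simp
      · field_simp
    have e2 : y2 / (y1 + y2) * (x2 / y2) = x2 / (y1 + y2) := by
      rcases hy2.eq_or_lt with hz | hz
      · have : x2 = 0 := by linarith
        rw [this]; simp
      · field_simp
    simp only [smul_eq_mul] at hj
    rw [e1, e2, ← add_div] at hj
    have hj2 := mul_le_mul_of_nonneg_left hj h.le
    have e3 : (y1 + y2) * (y1 / (y1 + y2) * Real.binEntropy (x1 / y1) +
        y2 / (y1 + y2) * Real.binEntropy (x2 / y2)) =
        y1 * Real.binEntropy (x1 / y1) + y2 * Real.binEntropy (x2 / y2) := by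
      field_simp
    rw [e3] at hj2
    exact hj2

theorem step_super {ι : Type} (S : Finset ι) (x y : ι → ℝ) (hx : ∀ j, 0 ≤ x j) (hxy : ∀ j, x j ≤ y j) :
    ∑ j ∈ S, y j * Real.binEntropy (x j / y j) ≤
      (∑ j ∈ S, y j) * Real.binEntropy ((∑ j ∈ S, x j) / (∑ j ∈ S, y j)) := by
  classical
  induction S using Finset.induction_on with
  | empty => simp
  | insert a S ha ih =>
    rw [Finset.sum_insert ha, Finset.sum_insert ha, Finset.sum_insert ha]
    have h := step_super2 (x a) (y a) (∑ j ∈ S, x j) (∑ j ∈ S, y j) (hx a) (hxy a)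
      (Finset.sum_nonneg (fun j _ => hx j)) (Finset.sum_le_sum (fun j _ => hxy j))
    linarith

open scoped Classical in
theorem step_conv_double (W : Finset P) (f : Finset P → ℝ) (c : Finset P) :
    conv W f c = ∑ s ∈ W.powerset, ∑ t ∈ W.powerset, if s ∪ t = c then f s * f t else 0 := by
  unfold conv
  rw [Finset.sum_filter, Finset.sum_product]

open scoped Classical in
theorem step_conv_low (W : Finset P) (i : P) (hi : i ∉ W) (f : Finset P → ℝ) (c : Finset P)
    (hc : c ⊆ W) : conv (insert i W) f c = conv W f c := by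
  rw [step_conv_double, step_conv_double, Finset.sum_powerset_insert hi]
  have hic : i ∉ c := fun h => hi (hc h)
  have h2 : ∑ s ∈ W.powerset, ∑ t ∈ (insert i W).powerset,
      (if insert i s ∪ t = c then f (insert i s) * f t else 0) = 0 := by
    refine Finset.sum_eq_zero (fun s _ => Finset.sum_eq_zero (fun t _ => ?_))
    rw [if_neg]
    intro h
    apply hic
    rw [← h]
    simp
  rw [h2, add_zero]
  refine Finset.sum_congr rfl (fun s _ => ?_)
  rw [Finset.sum_powerset_insert hi]
  have h3 : ∑ t ∈ W.powerset, (if s ∪ insert i t = c then f s * f (insert i t) else 0) = 0 := by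
    refine Finset.sum_eq_zero (fun t _ => ?_)
    rw [if_neg]
    intro h
    apply hic
    rw [← h]
    simp
  rw [h3, add_zero]

open scoped Classical in
theorem step_conv_add (W : Finset P) (i : P) (hi : i ∉ W) (f : Finset P → ℝ) (c : Finset P)
    (hc : c ⊆ W) : conv (insert i W) f c + conv (insert i W) f (insert i c) =
      conv W (fun s => f s + f (insert i s)) c := by
  rw [step_conv_low W i hi f c hc, step_conv_double W f c, step_conv_double _ f (insert i c),
    step_conv_double W _ c, Finset.sum_powerset_insert hi]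
  have hic : i ∉ c := fun h => hi (hc h)
  have key : ∀ u : Finset P, i ∉ u → (insert i u = insert i c ↔ u = c) := by
    intro u hu
    constructor
    · intro h
      have := congrArg (fun z => Finset.erase z i) h
      simpa [Finset.erase_insert hu, Finset.erase_insert hic] using this
    · intro h; rw [h]
  rw [← Finset.sum_add_distrib, ← Finset.sum_add_distrib]
  refine Finset.sum_congr rfl (fun s hs => ?_)
  simp only [Finset.sum_powerset_insert hi]
  simp only [← Finset.sum_add_distrib]
  refine Finset.sum_congr rfl (fun t ht => ?_)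
  have hs' : i ∉ s := fun h => hi (Finset.mem_powerset.mp hs h)
  have ht' : i ∉ t := fun h => hi (Finset.mem_powerset.mp ht h)
  have hst : i ∉ s ∪ t := by simp [hs', ht']
  have a1 : (s ∪ t = insert i c) ↔ False := by
    constructor
    · intro h; apply hst; rw [h]; simp
    · exact False.elim
  have a2 : (s ∪ insert i t = insert i c) ↔ s ∪ t = c := by
    rw [Finset.union_insert, key _ hst]
  have a3 : (insert i s ∪ t = insert i c) ↔ s ∪ t = c := by
    rw [Finset.insert_union, key _ hst]
  have a4 : (insert i s ∪ insert i t = insert i c) ↔ s ∪ t = c := by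
    rw [Finset.insert_union, Finset.union_insert, Finset.insert_idem, key _ hst]
  simp only [a1, a2, a3, a4]
  by_cases h : s ∪ t = c
  · simp [h]; ring
  · simp [h]

open scoped Classical in
theorem step_ent (W : Finset P) (i : P) (hi : i ∉ W) (f : Finset P → ℝ) (hf : ∀ s, 0 ≤ f s) :
    ent (insert i W) f = ent W (fun s => f s + f (insert i s)) +
      ∑ s ∈ W.powerset, (f s + f (insert i s)) *
        Real.binEntropy (f s / (f s + f (insert i s))) := by
  unfold ent
  rw [Finset.sum_powerset_insert hi, ← Finset.sum_add_distrib, ← Finset.sum_add_distrib]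
  exact Finset.sum_congr rfl (fun s _ => step_key _ _ (hf _) (hf _))

open scoped Classical in
theorem step_conv (W : Finset P) (i : P) (hi : i ∉ W) (f : Finset P → ℝ) (hf : ∀ s, 0 ≤ f s) :
    ent W (conv W (fun s => f s + f (insert i s))) +
      ∑ s ∈ W.powerset, ∑ t ∈ W.powerset, (f s + f (insert i s)) * (f t + f (insert i t)) *
        Real.binEntropy (f s / (f s + f (insert i s)) * (f t / (f t + f (insert i t)))) ≤
      ent (insert i W) (conv (insert i W) f) := by
  have hF : ∀ c, 0 ≤ conv (insert i W) f c := fun c => by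
    unfold conv
    exact Finset.sum_nonneg (fun q _ => mul_nonneg (hf _) (hf _))
  have e : ent (insert i W) (conv (insert i W) f) =
      ∑ c ∈ W.powerset, (Real.negMulLog (conv W (fun s => f s + f (insert i s)) c) +
        conv W (fun s => f s + f (insert i s)) c *
          Real.binEntropy (conv W f c / conv W (fun s => f s + f (insert i s)) c)) := by
    unfold ent
    rw [Finset.sum_powerset_insert hi, ← Finset.sum_add_distrib]
    refine Finset.sum_congr rfl (fun c hc => ?_)
    have hc' := Finset.mem_powerset.mp hc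
    rw [step_key _ _ (hF c) (hF (insert i c)), step_conv_add W i hi f c hc',
      step_conv_low W i hi f c hc']
  rw [e, Finset.sum_add_distrib]
  have e2 : ∑ c ∈ W.powerset, Real.negMulLog (conv W (fun s => f s + f (insert i s)) c) =
      ent W (conv W (fun s => f s + f (insert i s))) := rfl
  rw [e2]
  refine add_le_add le_rfl ?_
  have e3 : ∑ s ∈ W.powerset, ∑ t ∈ W.powerset, (f s + f (insert i s)) * (f t + f (insert i t)) *
        Real.binEntropy (f s / (f s + f (insert i s)) * (f t / (f t + f (insert i t)))) =
      ∑ c ∈ W.powerset, ∑ q ∈ (W.powerset ×ˢ W.powerset).filter (fun q => q.1 ∪ q.2 = c),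
        ((f q.1 + f (insert i q.1)) * (f q.2 + f (insert i q.2))) *
        Real.binEntropy ((f q.1 * f q.2) / ((f q.1 + f (insert i q.1)) *
          (f q.2 + f (insert i q.2)))) := by
    rw [Finset.sum_fiberwise_of_maps_to (g := fun q : Finset P × Finset P => q.1 ∪ q.2)]
    · rw [Finset.sum_product]
      refine Finset.sum_congr rfl (fun s _ => Finset.sum_congr rfl (fun t _ => ?_))
      rw [mul_div_mul_comm]
    · intro q hq
      rw [Finset.mem_product, Finset.mem_powerset, Finset.mem_powerset] at hq
      exact Finset.mem_powerset.mpr (Finset.union_subset hq.1 hq.2)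
  rw [e3]
  refine Finset.sum_le_sum (fun c _ => ?_)
  exact step_super _ (fun q : Finset P × Finset P => f q.1 * f q.2)
    (fun q => (f q.1 + f (insert i q.1)) * (f q.2 + f (insert i q.2)))
    (fun q => mul_nonneg (hf _) (hf _))
    (fun q => mul_le_mul (by linarith [hf (insert i q.1)]) (by linarith [hf (insert i q.2)])
      (hf _) (by linarith [hf q.1, hf (insert i q.1)]))

end Pool.Agent.Central
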