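import Pool.Agent.Central.PairA
import Pool.Agent.Central.PairB
import Pool.Agent.Central.Step
import Pool.Agent.Central.Marg

/-!
# Central, module Chain: entropy of the union of two independent copies

`p` is a probability distribution on the relatively upper subsets of `U`, every element of `U` has
probability at most `δ`.  Then
`ent U (conv U p) ≥ (1 - δ) * 1.73 * ent U p - (1 - δ) * δ / 4 * #(mx U)`.

Paper proof.  For a relatively upper subset `W` of `U` (`∀ a ∈ W, ∀ c ∈ U, a ≤ c → c ∈ W`) show by
induction on `#W`, with `m = marg U W p`,
`ent W (conv W m) ≥ (1 - δ) * 1.73 * ent W m - (1 - δ) * δ / 4 * #(W ∩ mx U)`.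
`W = ∅`: `m ∅ = 1`, both entropies are `0`.
`W ≠ ∅`: let `i` be a minimal element of `W`, `W' = W.erase i` (again relatively upper), and apply
`step_ent`, `step_conv` to `f = marg U W p`, `g s = f s + f (insert i s) = marg U W' p s` (`marg_insert`).
With `X s = f s / g s` (in `[0, 1]`; it is `0` when `g s = 0`) the weights `g s`, `s ⊆ W'`, have sum `1`
(`marg_sum`), and `∑ g s * (1 - X s) ≤ ∑ f (insert i s) = P (i ∈ A) ≤ δ` (`marg_mass`; where `g s = 0` both
sides are `0`).
If `i ∈ mx U` use `pairA`.
If `i ∉ mx U` there is `j ∈ U`, `i ≤ j`, `j ≠ i`; `j ∈ W` since `W` is relatively upper, so `j ∈ W'`.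
If `j ∉ s` then `f (insert i s) = 0`, because `p A = 0` unless `A` is relatively upper, and `i ∈ A`
implies `j ∈ A`; so `g s ≠ 0` and `X s ≠ 1` imply `j ∈ s`, and
`∑_{X s ≠ 1} g s ≤ ∑_{j ∈ s} g s = P (j ∈ A) ≤ δ`.  Use `pairB` (restrict the sums to the `s` with
`g s ≠ 0`, or replace `X s` by `1` where `g s = 0`) and `1.73 ≤ 2`, `ent ≥ 0` increments.
At the end `W = U`, `marg U U p = p`, `U ∩ mx U = mx U`.
-/

set_option autoImplicit false

namespace Pool.Agent.Central

open Finset

variable {P : Type} [PartialOrder P]

open scoped Classical in
theorem sum_filter_mem_insert (W : Finset P) (j : P) (hj : j ∉ W) (F : Finset P → ℝ) :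
    ∑ s ∈ (insert j W).powerset.filter (fun s => j ∈ s), F s =
      ∑ s ∈ W.powerset, F (insert j s) := by
  rw [Finset.sum_filter, Finset.sum_powerset_insert hj]
  have h1 : ∑ t ∈ W.powerset, (if j ∈ t then F t else 0) = 0 := by
    refine Finset.sum_eq_zero fun t ht => ?_
    rw [if_neg]
    exact fun h => hj (Finset.mem_powerset.mp ht h)
  rw [h1, zero_add]
  refine Finset.sum_congr rfl fun t _ => ?_
  rw [if_pos (Finset.mem_insert_self _ _)]

open scoped Classical in
theorem chain_aux (U : Finset P) (p : Finset P → ℝ) (δ : ℝ) (hδ0 : 0 ≤ δ) (hδ1 : δ ≤ 1)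
    (hp : ∀ A, 0 ≤ p A) (hsupp : ∀ A ∈ U.powerset, A ∉ up U → p A = 0)
    (hsum : ∑ A ∈ U.powerset, p A = 1)
    (hδ : ∀ a ∈ U, ∑ A ∈ U.powerset.filter (fun A => a ∈ A), p A ≤ δ) :
    ∀ (k : ℕ) (W : Finset P), W.card = k → W ⊆ U → (∀ a ∈ W, ∀ c ∈ U, a ≤ c → c ∈ W) →
      (1 - δ) * (173 / 100) * ent W (marg U W p) -
        (1 - δ) * (δ / 4) * ((W ∩ mx U).card : ℝ) ≤ ent W (conv W (marg U W p)) := by
  intro k
  induction k with
  | zero =>
      intro W hW _ _
      have hW0 : W = ∅ := Finset.card_eq_zero.mp hW
      subst hW0
      have h1 : marg U ∅ p ∅ = 1 := by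
        have := marg_sum U ∅ p
        rw [hsum] at this
        simpa using this
      have h2 : conv ∅ (marg U ∅ p) ∅ = 1 := by
        unfold conv
        simp [Finset.sum_filter, h1]
      simp [ent, h1, h2]
  | succ k ih =>
      intro W hW hWU hup
      have hne : W.Nonempty := by
        rw [← Finset.card_pos, hW]; exact Nat.succ_pos k
      obtain ⟨i, hi⟩ := W.exists_minimal hne
      have hiW : i ∈ W := hi.1
      have hmin : ∀ a ∈ W, a ≤ i → a = i := fun a ha hai =>
        le_antisymm hai (hi.2 ha hai)
      have hiU : i ∈ U := hWU hiW
      obtain ⟨W', hW'⟩ : ∃ W' : Finset P, W' = W.erase i := ⟨_, rfl⟩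
      have hiW' : i ∉ W' := by rw [hW']; exact Finset.notMem_erase i W
      have hins : insert i W' = W := by rw [hW']; exact Finset.insert_erase hiW
      have hW'U : W' ⊆ U := by
        rw [hW']; exact (Finset.erase_subset _ _).trans hWU
      have hup' : ∀ a ∈ W', ∀ c ∈ U, a ≤ c → c ∈ W' := by
        intro a ha c hc hac
        rw [hW', Finset.mem_erase] at ha ⊢
        refine ⟨?_, hup a ha.2 c hc hac⟩
        rintro rfl
        exact ha.1 (hmin a ha.2 hac)
      have hcard : W'.card = k := by
        rw [hW', Finset.card_erase_of_mem hiW, hW]; rfl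
      have hIH := ih W' hcard hW'U hup'
      have hfn : ∀ s, 0 ≤ marg U W p s := marg_nonneg U W p hp
      have hgm : ∀ s ∈ W'.powerset, marg U W p s + marg U W p (insert i s) = marg U W' p s := by
        intro s hs
        rw [marg_insert U W' i hiW' p s hs, hins]
      have hE := step_ent W' i hiW' (marg U W p) hfn
      have hC := step_conv W' i hiW' (marg U W p) hfn
      rw [hins] at hE hC
      have e1 : ent W' (fun s => marg U W p s + marg U W p (insert i s)) =
          ent W' (marg U W' p) := ent_congr W' _ _ hgm
      have e2 : ent W' (conv W' (fun s => marg U W p s + marg U W p (insert i s))) =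
          ent W' (conv W' (marg U W' p)) :=
        ent_congr W' _ _ (fun c _ => conv_congr W' _ _ hgm c)
      rw [e1] at hE
      rw [e2] at hC
      -- weights
      have hg0 : ∀ s ∈ W'.powerset, 0 ≤ marg U W p s + marg U W p (insert i s) :=
        fun s _ => add_nonneg (hfn s) (hfn _)
      have hg1 : ∑ s ∈ W'.powerset, (marg U W p s + marg U W p (insert i s)) = 1 := by
        rw [Finset.sum_congr rfl hgm, marg_sum, hsum]
      have hX0 : ∀ s ∈ W'.powerset,
          0 ≤ marg U W p s / (marg U W p s + marg U W p (insert i s)) :=
        fun s hs => div_nonneg (hfn s) (hg0 s hs)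
      have hX1 : ∀ s ∈ W'.powerset,
          marg U W p s / (marg U W p s + marg U W p (insert i s)) ≤ 1 :=
        fun s hs => div_le_one_of_le₀ (by linarith [hfn (insert i s)]) (hg0 s hs)
      by_cases him : i ∈ mx U
      · -- maximal
        have hc : ((W ∩ mx U).card : ℝ) = ((W' ∩ mx U).card : ℝ) + 1 := by
          rw [← hins, Finset.insert_inter_of_mem him, Finset.card_insert_of_notMem]
          · push_cast; ring
          · exact fun h => hiW' (Finset.mem_inter.mp h).1
        have hmass : ∑ s ∈ W'.powerset, (marg U W p s + marg U W p (insert i s)) *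
            (1 - marg U W p s / (marg U W p s + marg U W p (insert i s))) ≤ δ := by
          have h1 : ∀ s ∈ W'.powerset, (marg U W p s + marg U W p (insert i s)) *
              (1 - marg U W p s / (marg U W p s + marg U W p (insert i s))) =
              marg U W p (insert i s) := by
            intro s hs
            by_cases h0 : marg U W p s + marg U W p (insert i s) = 0
            · rw [h0, zero_mul]
              linarith [hfn s, hfn (insert i s)]
            · rw [mul_sub, mul_one, mul_div_cancel₀ _ h0]
              ring
          rw [Finset.sum_congr rfl h1]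
          have h2 := marg_mass U W' i hiW' p
          rw [hins] at h2
          rw [h2]
          exact hδ i hiU
        have hA := pairA W'.powerset (fun s => marg U W p s + marg U W p (insert i s))
          (fun s => marg U W p s / (marg U W p s + marg U W p (insert i s))) δ hg0 hg1 hX0 hX1
          hmass hδ1
        rw [hc, hE]
        have h3 : (1 - δ) * (173 / 100) * (ent W' (marg U W' p) +
            ∑ s ∈ W'.powerset, (marg U W p s + marg U W p (insert i s)) *
            Real.binEntropy (marg U W p s / (marg U W p s + marg U W p (insert i s)))) -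
            (1 - δ) * (δ / 4) * (((W' ∩ mx U).card : ℝ) + 1) =
            ((1 - δ) * (173 / 100) * ent W' (marg U W' p) -
              (1 - δ) * (δ / 4) * ((W' ∩ mx U).card : ℝ)) +
            (1 - δ) * (173 / 100 * ∑ s ∈ W'.powerset, (marg U W p s + marg U W p (insert i s)) *
            Real.binEntropy (marg U W p s / (marg U W p s + marg U W p (insert i s))) - δ / 4) := by
          ring
        rw [h3]
        exact (add_le_add hIH hA).trans hC
      · -- not maximal
        have hc : (W ∩ mx U) = (W' ∩ mx U) := by
          rw [← hins, Finset.insert_inter_of_notMem him]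
        obtain ⟨j, hjU, hij, hji⟩ : ∃ j ∈ U, i ≤ j ∧ j ≠ i := by
          by_contra hcon
          push Not at hcon
          exact him (Finset.mem_filter.mpr ⟨hiU, hcon⟩)
        have hjW : j ∈ W := hup i hiW j hjU hij
        have hjW' : j ∈ W' := by rw [hW']; exact Finset.mem_erase.mpr ⟨hji, hjW⟩
        obtain ⟨X', hX'⟩ : ∃ X' : Finset P → ℝ, ∀ s, X' s =
            if marg U W p s + marg U W p (insert i s) = 0 then 1 else
              marg U W p s / (marg U W p s + marg U W p (insert i s)) := ⟨_, fun _ => rfl⟩
        have hX'0 : ∀ s ∈ W'.powerset, 0 ≤ X' s := by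
          intro s hs
          rw [hX']
          split_ifs
          · exact zero_le_one
          · exact hX0 s hs
        have hX'1 : ∀ s ∈ W'.powerset, X' s ≤ 1 := by
          intro s hs
          rw [hX']
          split_ifs
          · exact le_rfl
          · exact hX1 s hs
        have hkey : ∀ s ∈ W'.powerset, X' s ≠ 1 → j ∈ s := by
          intro s hs hne1
          rw [hX'] at hne1
          split_ifs at hne1 with h0
          · exact absurd rfl hne1
          have h1 : marg U W p (insert i s) ≠ 0 := by
            intro h
            apply hne1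
            rw [h, add_zero] at h0 ⊢
            exact div_self h0
          -- some set of positive mass
          unfold marg at h1
          obtain ⟨A, hA, hpA⟩ := Finset.exists_ne_zero_of_sum_ne_zero h1
          rw [Finset.mem_filter] at hA
          have hAup : A ∈ up U := by
            by_contra h
            exact hpA (hsupp A hA.1 h)
          unfold up at hAup
          rw [Finset.mem_filter] at hAup
          have hiA : i ∈ A := by
            have : i ∈ A ∩ W := by rw [hA.2]; exact Finset.mem_insert_self _ _
            exact (Finset.mem_inter.mp this).1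
          have hjA : j ∈ A := hAup.2 i hiA j hjU hij
          have hjs : j ∈ insert i s := by
            rw [← hA.2]; exact Finset.mem_inter.mpr ⟨hjA, hjW⟩
          rcases Finset.mem_insert.mp hjs with h | h
          · exact absurd h hji
          · exact h
        have hmass : ∑ s ∈ W'.powerset.filter (fun s => X' s ≠ 1),
            (marg U W p s + marg U W p (insert i s)) ≤ δ := by
          have h1 : ∑ s ∈ W'.powerset.filter (fun s => X' s ≠ 1),
              (marg U W p s + marg U W p (insert i s)) ≤
              ∑ s ∈ W'.powerset.filter (fun s => j ∈ s),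
              (marg U W p s + marg U W p (insert i s)) := by
            apply Finset.sum_le_sum_of_subset_of_nonneg
            · intro s hs
              rw [Finset.mem_filter] at hs ⊢
              exact ⟨hs.1, hkey s hs.1 hs.2⟩
            · intro s hs _
              exact hg0 s (Finset.mem_filter.mp hs).1
          refine h1.trans ?_
          have h2 : ∑ s ∈ W'.powerset.filter (fun s => j ∈ s),
              (marg U W p s + marg U W p (insert i s)) =
              ∑ s ∈ W'.powerset.filter (fun s => j ∈ s), marg U W' p s :=
            Finset.sum_congr rfl (fun s hs => hgm s (Finset.mem_filter.mp hs).1)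
          rw [h2]
          have hjins : insert j (W'.erase j) = W' := Finset.insert_erase hjW'
          have hjn : j ∉ W'.erase j := Finset.notMem_erase j W'
          have h3 := sum_filter_mem_insert (W'.erase j) j hjn (fun s => marg U W' p s)
          rw [hjins] at h3
          rw [h3]
          have h4 := marg_mass U (W'.erase j) j hjn p
          rw [hjins] at h4
          rw [h4]
          exact hδ j hjU
        have hB := pairB W'.powerset (fun s => marg U W p s + marg U W p (insert i s)) X' δ hg0
          hg1 hX'0 hX'1 hmass
        have hgX : ∀ s, (marg U W p s + marg U W p (insert i s)) * Real.binEntropy (X' s) =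
            (marg U W p s + marg U W p (insert i s)) *
              Real.binEntropy (marg U W p s / (marg U W p s + marg U W p (insert i s))) := by
          intro s
          by_cases h0 : marg U W p s + marg U W p (insert i s) = 0
          · rw [h0, zero_mul, zero_mul]
          · rw [hX', if_neg h0]
        have hgXX : ∀ s t, (marg U W p s + marg U W p (insert i s)) *
            (marg U W p t + marg U W p (insert i t)) * Real.binEntropy (X' s * X' t) =
            (marg U W p s + marg U W p (insert i s)) *
            (marg U W p t + marg U W p (insert i t)) *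
              Real.binEntropy (marg U W p s / (marg U W p s + marg U W p (insert i s)) *
                (marg U W p t / (marg U W p t + marg U W p (insert i t)))) := by
          intro s t
          by_cases h0 : marg U W p s + marg U W p (insert i s) = 0
          · rw [h0, zero_mul, zero_mul, zero_mul]
          · by_cases h1 : marg U W p t + marg U W p (insert i t) = 0
            · rw [h1, mul_zero, zero_mul, zero_mul]
            · rw [hX', hX', if_neg h0, if_neg h1]
        simp only [hgX, hgXX] at hB
        have hS0 : 0 ≤ ∑ s ∈ W'.powerset, (marg U W p s + marg U W p (insert i s)) *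
            Real.binEntropy (marg U W p s / (marg U W p s + marg U W p (insert i s))) :=
          Finset.sum_nonneg fun s hs => mul_nonneg (hg0 s hs)
            (Real.binEntropy_nonneg (hX0 s hs) (hX1 s hs))
        have h5 : (1 - δ) * (173 / 100) * ∑ s ∈ W'.powerset,
            (marg U W p s + marg U W p (insert i s)) *
            Real.binEntropy (marg U W p s / (marg U W p s + marg U W p (insert i s))) ≤
            2 * (1 - δ) * ∑ s ∈ W'.powerset, (marg U W p s + marg U W p (insert i s)) *
            Real.binEntropy (marg U W p s / (marg U W p s + marg U W p (insert i s))) := by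
          apply mul_le_mul_of_nonneg_right _ hS0
          have : 0 ≤ 1 - δ := by linarith
          nlinarith
        rw [hc, hE]
        have h3 : (1 - δ) * (173 / 100) * (ent W' (marg U W' p) +
            ∑ s ∈ W'.powerset, (marg U W p s + marg U W p (insert i s)) *
            Real.binEntropy (marg U W p s / (marg U W p s + marg U W p (insert i s)))) -
            (1 - δ) * (δ / 4) * ((W' ∩ mx U).card : ℝ) =
            ((1 - δ) * (173 / 100) * ent W' (marg U W' p) -
              (1 - δ) * (δ / 4) * ((W' ∩ mx U).card : ℝ)) +
            (1 - δ) * (173 / 100) * ∑ s ∈ W'.powerset, (marg U W p s + marg U W p (insert i s)) *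
            Real.binEntropy (marg U W p s / (marg U W p s + marg U W p (insert i s))) := by
          ring
        rw [h3]
        exact (add_le_add hIH (h5.trans hB)).trans hC

open scoped Classical in
theorem chain (U : Finset P) (p : Finset P → ℝ) (δ : ℝ) (hδ0 : 0 ≤ δ) (hδ1 : δ ≤ 1)
    (hp : ∀ A, 0 ≤ p A) (hsupp : ∀ A ∈ U.powerset, A ∉ up U → p A = 0)
    (hsum : ∑ A ∈ U.powerset, p A = 1)
    (hδ : ∀ a ∈ U, ∑ A ∈ U.powerset.filter (fun A => a ∈ A), p A ≤ δ) :
    (1 - δ) * (173 / 100) * ent U p - (1 - δ) * (δ / 4) * ((mx U).card : ℝ) ≤
      ent U (conv U p) := by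
  have h := chain_aux U p δ hδ0 hδ1 hp hsupp hsum hδ U.card U rfl (Finset.Subset.refl _)
    (fun _ _ c hc _ => hc)
  have e0 : ∀ s ∈ U.powerset, marg U U p s = p s := fun s hs => marg_self U p s hs
  rw [ent_congr U _ _ e0, ent_congr U _ _ (fun c _ => conv_congr U _ _ e0 c)] at h
  have e1 : U ∩ mx U = mx U := Finset.inter_eq_right.mpr (Finset.filter_subset _ _)
  rwa [e1] at h

end Pool.Agent.Central
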