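import Pool.Agent.Central.Defs

/-!
# Central, module Comb: ideals as pairs (upper subset of `U`, ideal of the available part of `D`)

`U` is a lower set of the finite poset `P`, `D` its complement (an upper set).  An ideal `I` of `P`
(element of `low univ`) corresponds to the pair `(A, B) = (U \ I, I ∩ D)` with `A ∈ up U` and
`B ∈ low (avail D A)`; inverse map `(A, B) ↦ (U \ A) ∪ B`.

* `sum_up`: number of ideals.
* `sum_mem`: number of ideals not containing `a ∈ U`.
* `sum_avail`: for `b ∈ D` let `b0 ≤ b` be a minimal element of `D`.  `b ∈ avail D A` implies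
  `b0 ∈ avail D A`, and for `b0 ∈ avail D A` at least half of the ideals of `avail D A` contain `b0`
  (`b0` is minimal in `avail D A`; the map `B ↦ insert b0 B` from the ideals without `b0` to the ideals
  with `b0` is injective), so the sum is at most twice the number of ideals `I` of `P` containing `b0`.
* `two_pow_mx`: for `X ⊆ mx U` the set `U \ X` is an ideal of `P`.
-/

set_option autoImplicit false

namespace Pool.Agent.Central

open Finset

variable {P : Type} [PartialOrder P]

open scoped Classical in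
lemma mem_low {T B : Finset P} :
    B ∈ low T ↔ B ⊆ T ∧ ∀ b ∈ B, ∀ c ∈ T, c ≤ b → c ∈ B := by
  unfold low
  rw [Finset.mem_filter, Finset.mem_powerset]

open scoped Classical in
lemma mem_up {U A : Finset P} :
    A ∈ up U ↔ A ⊆ U ∧ ∀ a ∈ A, ∀ c ∈ U, a ≤ c → c ∈ A := by
  unfold up
  rw [Finset.mem_filter, Finset.mem_powerset]

open scoped Classical in
lemma mem_avail {D A : Finset P} {x : P} :
    x ∈ avail D A ↔ x ∈ D ∧ ∀ a ∈ A, ¬ a ≤ x := by
  unfold avail
  rw [Finset.mem_filter]

open scoped Classical in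
lemma mem_mx {U : Finset P} {a : P} :
    a ∈ mx U ↔ a ∈ U ∧ ∀ c ∈ U, a ≤ c → c = a := by
  unfold mx
  rw [Finset.mem_filter]

open scoped Classical in
theorem up_union (U A B : Finset P) (hA : A ∈ up U) (hB : B ∈ up U) : A ∪ B ∈ up U := by
  rw [mem_up] at hA hB ⊢
  refine ⟨Finset.union_subset hA.1 hB.1, ?_⟩
  intro a ha c hc hac
  rw [Finset.mem_union] at ha ⊢
  rcases ha with ha | ha
  · exact Or.inl (hA.2 a ha c hc hac)
  · exact Or.inr (hB.2 a ha c hc hac)

open scoped Classical in
theorem avail_union (D A B : Finset P) : avail D (A ∪ B) = avail D A ∩ avail D B := by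
  ext x
  rw [Finset.mem_inter, mem_avail, mem_avail, mem_avail]
  constructor
  · rintro ⟨h1, h2⟩
    exact ⟨⟨h1, fun a ha => h2 a (Finset.mem_union_left _ ha)⟩,
      ⟨h1, fun a ha => h2 a (Finset.mem_union_right _ ha)⟩⟩
  · rintro ⟨⟨h1, h2⟩, ⟨_, h3⟩⟩
    refine ⟨h1, fun a ha => ?_⟩
    rcases Finset.mem_union.1 ha with ha | ha
    · exact h2 a ha
    · exact h3 a ha

theorem rl_avail (D A : Finset P) : RL D (avail D A) := by
  refine ⟨fun x hx => (mem_avail.1 hx).1, ?_⟩
  intro b hb c hc hcb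
  rw [mem_avail] at hb ⊢
  exact ⟨hc, fun a ha hac => hb.2 a ha (hac.trans hcb)⟩

theorem rl_empty (D : Finset P) : RL D (∅ : Finset P) := by
  refine ⟨Finset.empty_subset _, ?_⟩
  intro b hb
  exact absurd hb (Finset.notMem_empty b)

variable [Fintype P]

open scoped Classical in
/-- ideals as pairs, with an arbitrary condition on the ideal -/
lemma sum_gen (U : Finset P) (hU : ∀ a ∈ U, ∀ c, c ≤ a → c ∈ U) (R : Finset P → Prop) :
    ∑ A ∈ up U, ((low (avail (univ \ U) A)).filter (fun B => R ((U \ A) ∪ B))).card =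
      ((low (univ : Finset P)).filter R).card := by
  have hmaps : ∀ I ∈ (low (univ : Finset P)).filter R, U \ I ∈ up U := by
    intro I hI
    have hI' := mem_low.1 (Finset.mem_filter.1 hI).1
    rw [mem_up]
    refine ⟨Finset.sdiff_subset, ?_⟩
    intro a ha c hc hac
    rw [Finset.mem_sdiff] at ha ⊢
    exact ⟨hc, fun hcI => ha.2 (hI'.2 c hcI a (Finset.mem_univ _) hac)⟩
  rw [Finset.card_eq_sum_card_fiberwise (f := fun I => U \ I) (t := up U) hmaps]
  refine Finset.sum_congr rfl ?_
  intro A hA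
  have hA' := mem_up.1 hA
  have key1 : ∀ B ∈ low (avail (univ \ U) A), (U \ A) ∪ B ∈ low (univ : Finset P) := by
    intro B hB
    have hB' := mem_low.1 hB
    rw [mem_low]
    refine ⟨Finset.subset_univ _, ?_⟩
    intro b hb c _ hcb
    rw [Finset.mem_union, Finset.mem_sdiff] at hb ⊢
    rcases hb with ⟨hbU, hbA⟩ | hb
    · refine Or.inl ⟨hU b hbU c hcb, fun hcA => hbA (hA'.2 c hcA b hbU hcb)⟩
    · have hbv := mem_avail.1 (hB'.1 hb)
      by_cases hcU : c ∈ U
      · exact Or.inl ⟨hcU, fun hcA => hbv.2 c hcA hcb⟩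
      · refine Or.inr (hB'.2 b hb c ?_ hcb)
        rw [mem_avail]
        exact ⟨Finset.mem_sdiff.2 ⟨Finset.mem_univ _, hcU⟩,
          fun a ha hac => hbv.2 a ha (hac.trans hcb)⟩
  have key2 : ∀ B ∈ low (avail (univ \ U) A), ∀ x ∈ B, x ∉ U := by
    intro B hB x hx
    have := (mem_avail.1 ((mem_low.1 hB).1 hx)).1
    exact (Finset.mem_sdiff.1 this).2
  symm
  refine Finset.card_bij' (fun I _ => I \ U) (fun B _ => (U \ A) ∪ B) ?_ ?_ ?_ ?_
  · intro I hI
    rw [Finset.mem_filter, Finset.mem_filter] at hI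
    obtain ⟨⟨hI1, hI2⟩, hI3⟩ := hI
    have hI' := mem_low.1 hI1
    have hIe : (U \ A) ∪ (I \ U) = I := by
      ext x
      rw [Finset.mem_union, Finset.mem_sdiff, Finset.mem_sdiff]
      have hx : x ∈ A ↔ x ∈ U ∧ x ∉ I := by rw [← hI3, Finset.mem_sdiff]
      constructor
      · rintro (⟨h1, h2⟩ | ⟨h1, _⟩)
        · by_contra h3
          exact h2 (hx.2 ⟨h1, h3⟩)
        · exact h1
      · intro h1
        by_cases h2 : x ∈ U
        · exact Or.inl ⟨h2, fun h3 => (hx.1 h3).2 h1⟩
        · exact Or.inr ⟨h1, h2⟩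
    rw [Finset.mem_filter, hIe]
    refine ⟨?_, hI2⟩
    rw [mem_low]
    refine ⟨?_, ?_⟩
    · intro x hx
      rw [Finset.mem_sdiff] at hx
      rw [mem_avail]
      refine ⟨Finset.mem_sdiff.2 ⟨Finset.mem_univ _, hx.2⟩, ?_⟩
      intro a ha hax
      rw [← hI3, Finset.mem_sdiff] at ha
      exact ha.2 (hI'.2 x hx.1 a (Finset.mem_univ _) hax)
    · intro b hb c hc hcb
      rw [Finset.mem_sdiff] at hb ⊢
      refine ⟨hI'.2 b hb.1 c (Finset.mem_univ _) hcb, ?_⟩
      exact (Finset.mem_sdiff.1 (mem_avail.1 hc).1).2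
  · intro B hB
    rw [Finset.mem_filter] at hB
    rw [Finset.mem_filter, Finset.mem_filter]
    refine ⟨⟨key1 B hB.1, hB.2⟩, ?_⟩
    have hk := key2 B hB.1
    show U \ ((U \ A) ∪ B) = A
    ext x
    rw [Finset.mem_sdiff, Finset.mem_union, Finset.mem_sdiff]
    constructor
    · rintro ⟨h1, h2⟩
      by_contra h3
      exact h2 (Or.inl ⟨h1, h3⟩)
    · intro h1
      refine ⟨hA'.1 h1, ?_⟩
      rintro (⟨_, h3⟩ | h3)
      · exact h3 h1
      · exact hk x h3 (hA'.1 h1)
  · intro I hI
    rw [Finset.mem_filter, Finset.mem_filter] at hI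
    obtain ⟨⟨hI1, hI2⟩, hI3⟩ := hI
    show (U \ A) ∪ (I \ U) = I
    ext x
    rw [Finset.mem_union, Finset.mem_sdiff, Finset.mem_sdiff]
    have hx : x ∈ A ↔ x ∈ U ∧ x ∉ I := by rw [← hI3, Finset.mem_sdiff]
    constructor
    · rintro (⟨h1, h2⟩ | ⟨h1, _⟩)
      · by_contra h3
        exact h2 (hx.2 ⟨h1, h3⟩)
      · exact h1
    · intro h1
      by_cases h2 : x ∈ U
      · exact Or.inl ⟨h2, fun h3 => (hx.1 h3).2 h1⟩
      · exact Or.inr ⟨h1, h2⟩
  · intro B hB
    rw [Finset.mem_filter] at hB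
    have hk := key2 B hB.1
    show ((U \ A) ∪ B) \ U = B
    ext x
    rw [Finset.mem_sdiff, Finset.mem_union, Finset.mem_sdiff]
    constructor
    · rintro ⟨⟨h1, _⟩ | h1, h2⟩
      · exact absurd h1 h2
      · exact h1
    · intro h1
      exact ⟨Or.inr h1, hk x h1⟩

open scoped Classical in
theorem sum_up (U : Finset P) (hU : ∀ a ∈ U, ∀ c, c ≤ a → c ∈ U) :
    ∑ A ∈ up U, cnt (avail (univ \ U) A) = cnt (univ : Finset P) := by
  have h := sum_gen U hU (fun _ => True)
  unfold cnt
  rw [Finset.filter_true] at h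
  rw [← h]
  refine Finset.sum_congr rfl ?_
  intro A _
  rw [Finset.filter_true]

open scoped Classical in
theorem sum_mem (U : Finset P) (hU : ∀ a ∈ U, ∀ c, c ≤ a → c ∈ U) (a : P) (ha : a ∈ U) :
    ∑ A ∈ (up U).filter (fun A => a ∈ A), cnt (avail (univ \ U) A) =
      ((low (univ : Finset P)).filter (fun I => a ∉ I)).card := by
  have e := sum_gen U hU (fun I => a ∉ I)
  have e2 : ((low (univ : Finset P)).filter (fun I => a ∉ I)).card =
      ∑ A ∈ up U, ((low (avail (univ \ U) A)).filter (fun B => ¬ (a ∈ (U \ A) ∪ B))).card := by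
    refine Eq.trans ?_ (e.symm.trans ?_)
    · exact congrArg Finset.card (Finset.ext (fun I => by simp only [Finset.mem_filter]))
    · refine Finset.sum_congr rfl (fun A _ => ?_)
      exact congrArg Finset.card (Finset.ext (fun I => by simp only [Finset.mem_filter]))
  rw [e2, Finset.sum_filter]
  refine Finset.sum_congr rfl ?_
  intro A _
  have hB : ∀ B ∈ low (avail (univ \ U) A), a ∉ B := by
    intro B hB haB
    have := (mem_avail.1 ((mem_low.1 hB).1 haB)).1
    exact (Finset.mem_sdiff.1 this).2 ha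
  by_cases haA : a ∈ A
  · rw [if_pos haA, Finset.filter_true_of_mem]
    · rfl
    · intro B hB1 hm
      rw [Finset.mem_union, Finset.mem_sdiff] at hm
      rcases hm with ⟨_, h⟩ | h
      · exact h haA
      · exact hB B hB1 h
  · rw [if_neg haA, Finset.filter_false_of_mem, Finset.card_empty]
    intro B _ hm
    exact hm (Finset.mem_union_left _ (Finset.mem_sdiff.2 ⟨ha, haA⟩))

open scoped Classical in
theorem sum_avail (U : Finset P) (hU : ∀ a ∈ U, ∀ c, c ≤ a → c ∈ U) (b : P) (hb : b ∉ U) :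
    ∃ b0, b0 ∉ U ∧
      ∑ A ∈ (up U).filter (fun A => b ∈ avail (univ \ U) A), cnt (avail (univ \ U) A) ≤
        2 * ((low (univ : Finset P)).filter (fun I => b0 ∈ I)).card := by
  obtain ⟨b0, hb0, hmin⟩ := ((univ \ U).filter (fun x => x ≤ b)).exists_minimal
    ⟨b, Finset.mem_filter.2 ⟨Finset.mem_sdiff.2 ⟨Finset.mem_univ _, hb⟩, le_refl b⟩⟩
  rw [Finset.mem_filter, Finset.mem_sdiff] at hb0
  have hmin' : ∀ c, c ∉ U → c ≤ b0 → c = b0 := by
    intro c hc hcb
    have h1 : c ∈ (univ \ U).filter (fun x => x ≤ b) :=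
      Finset.mem_filter.2 ⟨Finset.mem_sdiff.2 ⟨Finset.mem_univ _, hc⟩, hcb.trans hb0.2⟩
    exact le_antisymm hcb (hmin h1 hcb)
  refine ⟨b0, hb0.1.2, ?_⟩
  have hb0U : b0 ∉ U := hb0.1.2
  have step1 : ∑ A ∈ (up U).filter (fun A => b ∈ avail (univ \ U) A), cnt (avail (univ \ U) A) ≤
      ∑ A ∈ (up U).filter (fun A => b0 ∈ avail (univ \ U) A), cnt (avail (univ \ U) A) := by
    refine Finset.sum_le_sum_of_subset ?_
    intro A hA
    rw [Finset.mem_filter] at hA ⊢
    refine ⟨hA.1, ?_⟩
    have h2 := mem_avail.1 hA.2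
    rw [mem_avail]
    exact ⟨Finset.mem_sdiff.2 ⟨Finset.mem_univ _, hb0U⟩,
      fun a ha hab => h2.2 a ha (hab.trans hb0.2)⟩
  have half : ∀ T : Finset P, b0 ∈ T → T ⊆ univ \ U →
      cnt T ≤ 2 * ((low T).filter (fun B => b0 ∈ B)).card := by
    intro T hbT hT
    have h1 : ((low T).filter (fun B => b0 ∉ B)).card ≤ ((low T).filter (fun B => b0 ∈ B)).card := by
      refine Finset.card_le_card_of_injOn (fun B => insert b0 B) ?_ ?_
      · intro B hB
        rw [Finset.mem_coe, Finset.mem_filter, mem_low] at hB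
        rw [Finset.mem_coe, Finset.mem_filter, mem_low]
        obtain ⟨⟨h2, h3⟩, h4⟩ := hB
        refine ⟨⟨?_, ?_⟩, Finset.mem_insert_self _ _⟩
        · intro x hx
          rcases Finset.mem_insert.1 hx with hx | hx
          · rw [hx]; exact hbT
          · exact h2 hx
        · intro x hx c hc hcx
          rcases Finset.mem_insert.1 hx with hx | hx
          · rw [hx] at hcx
            rw [hmin' c (Finset.mem_sdiff.1 (hT hc)).2 hcx]
            exact Finset.mem_insert_self _ _
          · exact Finset.mem_insert_of_mem (h3 x hx c hc hcx)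
      · intro B hB C hC hBC
        rw [Finset.mem_coe, Finset.mem_filter] at hB hC
        have h5 : (insert b0 B).erase b0 = (insert b0 C).erase b0 := by
          show (insert b0 B).erase b0 = (insert b0 C).erase b0
          rw [show insert b0 B = insert b0 C from hBC]
        rw [Finset.erase_insert hB.2, Finset.erase_insert hC.2] at h5
        exact h5
    have h6 : ((low T).filter (fun B => b0 ∈ B)).card + ((low T).filter (fun B => b0 ∉ B)).card =
        (low T).card := by
      exact Finset.card_filter_add_card_filter_not (s := low T) (fun B => b0 ∈ B)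
    unfold cnt
    omega
  refine step1.trans ?_
  have e := sum_gen U hU (fun I => b0 ∈ I)
  have e2 : ((low (univ : Finset P)).filter (fun I => b0 ∈ I)).card =
      ∑ A ∈ up U, ((low (avail (univ \ U) A)).filter (fun B => b0 ∈ (U \ A) ∪ B)).card := by
    refine Eq.trans ?_ (e.symm.trans ?_)
    · exact congrArg Finset.card (Finset.ext (fun I => by simp only [Finset.mem_filter]))
    · refine Finset.sum_congr rfl (fun A _ => ?_)
      exact congrArg Finset.card (Finset.ext (fun I => by simp only [Finset.mem_filter]))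
  rw [e2, Finset.mul_sum, Finset.sum_filter]
  refine Finset.sum_le_sum ?_
  intro A _
  by_cases h7 : b0 ∈ avail (univ \ U) A
  · rw [if_pos h7]
    refine (half _ h7 (fun x hx => (mem_avail.1 hx).1)).trans ?_
    refine Nat.mul_le_mul_left _ (Finset.card_le_card ?_)
    intro B hB
    rw [Finset.mem_filter] at hB ⊢
    exact ⟨hB.1, Finset.mem_union_right _ hB.2⟩
  · rw [if_neg h7]
    exact Nat.zero_le _

theorem two_pow_mx (U : Finset P) (hU : ∀ a ∈ U, ∀ c, c ≤ a → c ∈ U) :
    2 ^ (mx U).card ≤ cnt (univ : Finset P) := by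
  classical
  rw [← Finset.card_powerset]
  unfold cnt
  refine Finset.card_le_card_of_injOn (fun X => U \ X) ?_ ?_
  · intro X hX
    rw [Finset.mem_coe, Finset.mem_powerset] at hX
    rw [Finset.mem_coe, mem_low]
    refine ⟨Finset.subset_univ _, ?_⟩
    intro b hb c _ hcb
    have hb' := Finset.mem_sdiff.1 hb
    refine Finset.mem_sdiff.2 ⟨hU b hb'.1 c hcb, fun hcX => hb'.2 ?_⟩
    have hc := mem_mx.1 (hX hcX)
    rw [hc.2 b hb'.1 hcb]
    exact hcX
  · intro X hX Y hY hXY
    rw [Finset.mem_coe, Finset.mem_powerset] at hX hY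
    have hXU : X ⊆ U := fun x hx => (mem_mx.1 (hX hx)).1
    have hYU : Y ⊆ U := fun x hx => (mem_mx.1 (hY hx)).1
    have h1 : U \ X = U \ Y := hXY
    calc X = U \ (U \ X) := (Finset.sdiff_sdiff_eq_self hXU).symm
      _ = U \ (U \ Y) := by rw [h1]
      _ = Y := Finset.sdiff_sdiff_eq_self hYU

end Pool.Agent.Central
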