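import Pool.Agent.Central.Defs

/-!
# Central, module Conc: concavity of `h (x) / x` as a function of `- log x`

Paper proof.  Put `x = exp (-s)`, `k s = h (exp (-s)) * exp s = s - (exp s - 1) * log (1 - exp (-s))`
for `s > 0` and `k 0 = 0` (`h = Real.binEntropy`, natural logarithm).  With `v = - log (1 - exp (-s))`
we have `k s = s + (exp s - 1) * v`, `v' = - 1 / (exp s - 1)`, `k' = 1 + exp s * v - 1 = exp s * v`,
`k'' = exp s * (v - 1 / (exp s - 1)) ≤ 0` because `v = log (1 + 1 / (exp s - 1)) ≤ 1 / (exp s - 1)`.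
So `k` is concave on `(0, ∞)`, and on `[0, ∞)` by continuity at `0` (`concaveOn_of_deriv2_nonpos` or the
antitone derivative criterion).  Midpoint concavity at `2 s, 2 t` is
`h (x y) / (x y) ≥ (h (x ^ 2) / x ^ 2 + h (y ^ 2) / y ^ 2) / 2`, multiply by `x y`.
-/

set_option autoImplicit false

namespace Pool.Agent.Central

namespace ConcAux

open Real

/-- `h (x) / x` at `x = exp (-s)` -/
noncomputable def k (s : ℝ) : ℝ := binEntropy (exp (-s)) * exp s

theorem k_cont : Continuous k :=
  (binEntropy_continuous.comp (continuous_exp.comp continuous_neg)).mul continuous_exp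

theorem p_lt {s : ℝ} (hs : 0 < s) : exp (-s) < 1 := by
  rw [exp_lt_one_iff]
  linarith

theorem k_deriv {s : ℝ} (hs : 0 < s) : HasDerivAt k (-(exp s * log (1 - exp (-s)))) s := by
  have hp := p_lt hs
  have hp0 : exp (-s) ≠ 0 := (exp_pos _).ne'
  have h1 : HasDerivAt (fun s => exp (-s)) (exp (-s) * (-1)) s :=
    (hasDerivAt_id s).neg.exp
  have h2 := (hasDerivAt_binEntropy hp0 hp.ne).comp s h1
  have h3 := h2.mul (hasDerivAt_exp s)
  refine h3.congr_deriv ?_
  have e1 : exp (-s) * exp s = 1 := by rw [← exp_add, neg_add_cancel, exp_zero]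
  simp only [Function.comp, binEntropy, log_inv, log_exp]
  linear_combination (-(log (1 - exp (-s))) + (-s) - (-s) + log (1 - exp (-s))) * e1 +
    (s - s) * e1

theorem k_deriv2 {s : ℝ} (hs : 0 < s) :
    HasDerivAt (fun s => -(exp s * log (1 - exp (-s))))
      (-(exp s * log (1 - exp (-s)) + exp s * (exp (-s) / (1 - exp (-s))))) s := by
  have hp := p_lt hs
  have h1 : HasDerivAt (fun s => 1 - exp (-s)) (exp (-s)) s := by
    have := ((hasDerivAt_id s).neg.exp).const_sub 1
    refine this.congr_deriv ?_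
    simp
  have h2 := h1.log (by linarith : (1 - exp (-s)) ≠ 0)
  exact ((hasDerivAt_exp s).mul h2).neg

theorem k_deriv2_nonpos {s : ℝ} (hs : 0 < s) :
    -(exp s * log (1 - exp (-s)) + exp s * (exp (-s) / (1 - exp (-s)))) ≤ 0 := by
  have hp := p_lt hs
  have h1 : 0 < 1 - exp (-s) := by linarith
  have h2 : -log (1 - exp (-s)) ≤ exp (-s) / (1 - exp (-s)) := by
    rw [← log_inv]
    refine (log_le_sub_one_of_pos (inv_pos.2 h1)).trans (le_of_eq ?_)
    field_simp
    ring
  have h3 : 0 ≤ exp s * (log (1 - exp (-s)) + exp (-s) / (1 - exp (-s))) :=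
    mul_nonneg (exp_pos s).le (by linarith)
  linarith

theorem k_concave : ConcaveOn ℝ (Set.Ici 0) k := by
  have hint : interior (Set.Ici (0 : ℝ)) = Set.Ioi 0 := interior_Ici
  refine concaveOn_of_hasDerivWithinAt2_nonpos (convex_Ici 0) k_cont.continuousOn
    (f' := fun s => -(exp s * log (1 - exp (-s))))
    (f'' := fun s => -(exp s * log (1 - exp (-s)) + exp s * (exp (-s) / (1 - exp (-s)))))
    ?_ ?_ ?_
  · intro s hs
    rw [hint] at hs
    exact (k_deriv hs).hasDerivWithinAt
  · intro s hs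
    rw [hint] at hs
    exact (k_deriv2 hs).hasDerivWithinAt
  · intro s hs
    rw [hint] at hs
    exact k_deriv2_nonpos hs

end ConcAux

open ConcAux in
theorem conc (x y : ℝ) (hx : 0 < x) (hx1 : x ≤ 1) (hy : 0 < y) (hy1 : y ≤ 1) :
    (y / x * Real.binEntropy (x ^ 2) + x / y * Real.binEntropy (y ^ 2)) / 2 ≤
      Real.binEntropy (x * y) := by
  set a := -Real.log x with ha
  set b := -Real.log y with hb
  have ha0 : 0 ≤ a := by
    rw [ha]
    linarith [Real.log_nonpos hx.le hx1]
  have hb0 : 0 ≤ b := by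
    rw [hb]
    linarith [Real.log_nonpos hy.le hy1]
  have hxe : Real.exp (-a) = x := by rw [ha, neg_neg, Real.exp_log hx]
  have hye : Real.exp (-b) = y := by rw [hb, neg_neg, Real.exp_log hy]
  have hxe' : Real.exp a = x⁻¹ := by rw [ha, Real.exp_neg, Real.exp_log hx]
  have hye' : Real.exp b = y⁻¹ := by rw [hb, Real.exp_neg, Real.exp_log hy]
  have h2a : (2 * a) ∈ Set.Ici (0 : ℝ) := Set.mem_Ici.2 (by linarith)
  have h2b : (2 * b) ∈ Set.Ici (0 : ℝ) := Set.mem_Ici.2 (by linarith)
  have h1 := k_concave.2 h2a h2b (show (0 : ℝ) ≤ 1 / 2 by norm_num)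
    (show (0 : ℝ) ≤ 1 / 2 by norm_num) (by norm_num)
  have e1 : k (2 * a) = Real.binEntropy (x ^ 2) * (x⁻¹ * x⁻¹) := by
    unfold k
    rw [show -(2 * a) = -a + -a by ring, show 2 * a = a + a by ring, Real.exp_add, Real.exp_add,
      hxe, hxe', sq]
  have e2 : k (2 * b) = Real.binEntropy (y ^ 2) * (y⁻¹ * y⁻¹) := by
    unfold k
    rw [show -(2 * b) = -b + -b by ring, show 2 * b = b + b by ring, Real.exp_add, Real.exp_add,
      hye, hye', sq]
  have e3 : k ((1 / 2 : ℝ) • (2 * a) + (1 / 2 : ℝ) • (2 * b)) =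
      Real.binEntropy (x * y) * (x⁻¹ * y⁻¹) := by
    unfold k
    rw [show (1 / 2 : ℝ) • (2 * a) + (1 / 2 : ℝ) • (2 * b) = a + b by
      simp only [smul_eq_mul]; ring, neg_add, Real.exp_add, Real.exp_add, hxe, hye, hxe', hye']
  rw [e1, e2, e3, smul_eq_mul, smul_eq_mul] at h1
  have h2 := mul_le_mul_of_nonneg_right h1 (mul_pos hx hy).le
  have e4 : Real.binEntropy (x * y) * (x⁻¹ * y⁻¹) * (x * y) = Real.binEntropy (x * y) := by
    field_simp
  rw [e4] at h2
  refine le_trans (le_of_eq ?_) h2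
  field_simp

end Pool.Agent.Central
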