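import Mathlib

/-!
# Central elements of finite posets: definitions

`low T` is the finset of order ideals (relatively lower subsets) of the induced poset on `T`,
`cnt T` their number, `up U` the finset of relatively upper subsets of `U`, `avail D A` the set of
elements of `D` that are above no element of `A`, `mx U` the maximal elements of `U`,
`RL D S` says that `S` is a relatively lower subset of `D`.
-/

set_option autoImplicit false

namespace Pool.Agent.Central

open Finset

open scoped Classical

variable {P : Type} [PartialOrder P]

/-- relatively lower subsets of `T` -/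
noncomputable def low (T : Finset P) : Finset (Finset P) :=
  T.powerset.filter (fun B => ∀ b ∈ B, ∀ c ∈ T, c ≤ b → c ∈ B)

/-- number of relatively lower subsets of `T` -/
noncomputable def cnt (T : Finset P) : ℕ := (low T).card

/-- relatively upper subsets of `U` -/
noncomputable def up (U : Finset P) : Finset (Finset P) :=
  U.powerset.filter (fun A => ∀ a ∈ A, ∀ c ∈ U, a ≤ c → c ∈ A)

/-- elements of `D` above no element of `A` -/
noncomputable def avail (D A : Finset P) : Finset P :=
  D.filter (fun b => ∀ a ∈ A, ¬ a ≤ b)

/-- maximal elements of `U` -/
noncomputable def mx (U : Finset P) : Finset P :=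
  U.filter (fun a => ∀ c ∈ U, a ≤ c → c = a)

/-- `S` is a relatively lower subset of `D` -/
def RL (D S : Finset P) : Prop :=
  S ⊆ D ∧ ∀ b ∈ S, ∀ c ∈ D, c ≤ b → c ∈ S

/-- total entropy (natural logarithm) of a weight function on the subsets of `W` -/
noncomputable def ent (W : Finset P) (f : Finset P → ℝ) : ℝ :=
  ∑ s ∈ W.powerset, Real.negMulLog (f s)

/-- union convolution: `(conv W f) c = sum of f s * f t over s, t inside W with s ∪ t = c` -/
noncomputable def conv (W : Finset P) (f : Finset P → ℝ) (c : Finset P) : ℝ :=
  ∑ q ∈ (W.powerset ×ˢ W.powerset).filter (fun q => q.1 ∪ q.2 = c), f q.1 * f q.2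

/-- marginal on the subsets of `W`: sum of `p A` over `A` inside `U` with `A ∩ W = s` -/
noncomputable def marg (U W : Finset P) (p : Finset P → ℝ) (s : Finset P) : ℝ :=
  ∑ A ∈ U.powerset.filter (fun A => A ∩ W = s), p A

end Pool.Agent.Central
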