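import Pool.Agent.Central.Main

/-!
# Central, module Final: the theorem for finite posets
-/

set_option autoImplicit false

namespace Pool.Agent.Central

open Finset

open scoped Classical in
theorem final (P : Type) [Fintype P] [Nonempty P] [PartialOrder P] :
    ∃ x : P, (4 / 23 : ℝ) * (low (univ : Finset P)).card ≤
        ((low (univ : Finset P)).filter (fun I => x ∈ I)).card ∧
      (((low (univ : Finset P)).filter (fun I => x ∈ I)).card : ℝ) ≤
        (19 / 23 : ℝ) * (low (univ : Finset P)).card := by
  by_contra hcon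
  push Not at hcon
  set N : ℝ := ((low (univ : Finset P)).card : ℝ) with hN
  set R : P → ℝ := fun x => (((low (univ : Finset P)).filter (fun I => x ∈ I)).card : ℝ) with hR
  set U : Finset P := univ.filter (fun x => 19 / 23 * N < R x) with hU
  have hNcnt : N = (cnt (univ : Finset P) : ℝ) := rfl
  have hlowmem : ∀ I : Finset P, I ∈ low (univ : Finset P) ↔ ∀ b ∈ I, ∀ c, c ≤ b → c ∈ I := by
    intro I
    unfold low
    simp
  have hUlow : ∀ a ∈ U, ∀ c, c ≤ a → c ∈ U := by
    intro a ha c hca
    rw [hU, mem_filter] at ha ⊢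
    refine ⟨mem_univ _, lt_of_lt_of_le ha.2 ?_⟩
    simp only [hR]
    norm_cast
    refine card_le_card fun I hI => ?_
    rw [mem_filter] at hI ⊢
    exact ⟨hI.1, (hlowmem I).1 hI.1 a hI.2 c hca⟩
  have hD : ∀ b, b ∉ U → R b < 4 / 23 * N := by
    intro b hb
    rw [hU, mem_filter] at hb
    push Not at hb
    have h1 := hb (mem_univ b)
    by_contra h2
    push Not at h2
    exact absurd (hcon b h2) (not_lt.mpr h1)
  -- N > 1
  have hN1 : 1 < N := by
    obtain ⟨x⟩ := (inferInstance : Nonempty P)
    have h1 : (∅ : Finset P) ∈ low (univ : Finset P) := by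
      rw [hlowmem]; simp
    have h2 : (univ : Finset P) ∈ low (univ : Finset P) := by
      rw [hlowmem]; simp
    have h3 : (∅ : Finset P) ≠ univ := (univ_nonempty_iff.mpr ⟨x⟩).ne_empty.symm
    rw [hN]
    exact_mod_cast one_lt_card.mpr ⟨∅, h1, univ, h2, h3⟩
  have hN0 : 0 < N := by linarith
  set D : Finset P := univ \ U with hDdef
  set p : Finset P → ℝ := fun A => if A ∈ up U then (cnt (avail D A) : ℝ) / N else 0 with hp
  have hmono : (cnt D : ℝ) ≤ N := by
    rw [hNcnt]
    exact_mod_cast cnt_mono D univ (subset_univ _)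
  have hpup : ∀ A ∈ up U, p A = (cnt (avail D A) : ℝ) / N := by
    intro A hA; simp [hp, hA]
  refine main_core U D p (fun A => (cnt (avail D A) : ℝ)) N (4 / 23) hN1 rfl (fun A => rfl)
    hpup (fun A hA => by simp [hp, hA]) ?_ ?_ ?_ hmono ?_
  · rw [hNcnt]
    exact_mod_cast sum_up U hUlow
  · intro a ha
    have hsub : (up U).filter (fun A => a ∈ A) ⊆ U.powerset.filter (fun A => a ∈ A) := by
      intro A hA
      rw [mem_filter] at hA ⊢
      exact ⟨up_sub U hA.1, hA.2⟩
    rw [← sum_subset hsub]
    · rw [sum_congr rfl (fun A hA => hpup A (mem_filter.mp hA).1), ← sum_div, div_le_iff₀ hN0]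
      have h := sum_mem U hUlow a ha
      have h' : ∑ A ∈ (up U).filter (fun A => a ∈ A), (cnt (avail D A) : ℝ) =
          (((low (univ : Finset P)).filter (fun I => a ∉ I)).card : ℝ) := by
        exact_mod_cast h
      rw [h']
      have hsplit : (((low (univ : Finset P)).filter (fun I => a ∈ I)).card : ℝ) +
          (((low (univ : Finset P)).filter (fun I => a ∉ I)).card : ℝ) = N := by
        rw [hN]
        exact_mod_cast card_filter_add_card_filter_not (s := low (univ : Finset P)) (fun I => a ∈ I)
      have hR' : 19 / 23 * N < R a := by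
        rw [hU, mem_filter] at ha; exact ha.2
      simp only [hR] at hR'
      linarith
    · intro A hA hA2
      have : A ∉ up U := fun h => hA2 (mem_filter.mpr ⟨h, (mem_filter.mp hA).2⟩)
      simp [hp, this]
  · intro b hb
    have hbU : b ∉ U := by
      rw [hDdef, mem_sdiff] at hb; exact hb.2
    obtain ⟨b0, hb0, hle⟩ := sum_avail U hUlow b hbU
    rw [sum_congr rfl (fun A hA => hpup A (mem_filter.mp hA).1), ← sum_div, div_le_iff₀ hN0]
    have h1 : ∑ A ∈ (up U).filter (fun A => b ∈ avail D A), (cnt (avail D A) : ℝ) ≤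
        2 * (((low (univ : Finset P)).filter (fun I => b0 ∈ I)).card : ℝ) := by
      exact_mod_cast hle
    have h2 := hD b0 hb0
    simp only [hR] at h2
    linarith
  · have h := two_pow_mx U hUlow
    have h' : (2 : ℝ) ^ (mx U).card ≤ N := by
      rw [hNcnt]; exact_mod_cast h
    have hl := Real.log_le_log (by positivity) h'
    rw [Real.log_pow] at hl
    exact hl

open scoped Classical in
/-- lower sets as finsets -/
theorem ncard_low (P : Type) [Fintype P] [PartialOrder P] (q : P → Prop) (x : P)
    (hq : q x) :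
    Set.ncard {s : Set P | IsLowerSet s ∧ (q x → x ∈ s)} =
      ((low (univ : Finset P)).filter (fun I => x ∈ I)).card := by
  have h : {s : Set P | IsLowerSet s ∧ (q x → x ∈ s)} =
      (fun I : Finset P => (I : Set P)) '' (((low (univ : Finset P)).filter (fun I => x ∈ I)) :
        Set (Finset P)) := by
    ext s
    simp only [Set.mem_setOf_eq, Set.mem_image, coe_filter]
    constructor
    · rintro ⟨hs, hx⟩
      refine ⟨s.toFinset, ⟨?_, ?_⟩, by simp⟩
      · unfold low
        simp only [mem_filter, mem_powerset, Set.mem_toFinset]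
        exact ⟨subset_univ _, fun b hb c _ hcb => hs hcb hb⟩
      · simpa using hx hq
    · rintro ⟨I, ⟨hI, hxI⟩, rfl⟩
      unfold low at hI
      simp only [mem_filter] at hI
      refine ⟨fun a b hba ha => ?_, fun _ => by simpa using hxI⟩
      exact_mod_cast hI.2 a (by exact_mod_cast ha) b (mem_univ _) hba
  rw [h, Set.ncard_image_of_injective _ (fun a b hab => by exact_mod_cast hab), Set.ncard_coe_finset]

open scoped Classical in
/-- lower sets as finsets, all of them -/
theorem ncard_low_all (P : Type) [Fintype P] [PartialOrder P] :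
    Set.ncard {s : Set P | IsLowerSet s} = (low (univ : Finset P)).card := by
  have h : {s : Set P | IsLowerSet s} =
      (fun I : Finset P => (I : Set P)) '' ((low (univ : Finset P)) : Set (Finset P)) := by
    ext s
    simp only [Set.mem_setOf_eq, Set.mem_image, mem_coe]
    constructor
    · intro hs
      refine ⟨s.toFinset, ?_, by simp⟩
      unfold low
      simp only [mem_filter, mem_powerset, Set.mem_toFinset]
      exact ⟨subset_univ _, fun b hb c _ hcb => hs hcb hb⟩
    · rintro ⟨I, hI, rfl⟩
      unfold low at hI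
      simp only [mem_filter] at hI
      intro a b hba ha
      exact_mod_cast hI.2 a (by exact_mod_cast ha) b (mem_univ _) hba
  rw [h, Set.ncard_image_of_injective _ (fun a b hab => by exact_mod_cast hab), Set.ncard_coe_finset]

open scoped Classical in
theorem final_sets (P : Type) [Fintype P] [Nonempty P] [PartialOrder P] :
    ∃ x : P,
      ((Set.ncard {s : Set P | IsLowerSet s} : ℕ) : ℝ) / (23 / 4) ≤
        ((Set.ncard {s : Set P | IsLowerSet s ∧ x ∈ s} : ℕ) : ℝ) ∧
      ((Set.ncard {s : Set P | IsLowerSet s ∧ x ∈ s} : ℕ) : ℝ) ≤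
        (1 - 1 / (23 / 4)) * ((Set.ncard {s : Set P | IsLowerSet s} : ℕ) : ℝ) := by
  obtain ⟨x, h1, h2⟩ := final P
  refine ⟨x, ?_⟩
  have e1 := ncard_low P (fun _ => True) x trivial
  simp only [true_implies] at e1
  rw [e1, ncard_low_all P]
  constructor
  · refine le_trans (le_of_eq ?_) h1
    ring
  · refine le_trans h2 (le_of_eq ?_)
    ring

end Pool.Agent.Central
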