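import Mathlib

/-!
# Central, module Gibbs: the Gibbs inequality

`∑ negMulLog (p i) + ∑ p i * log (Z i) ≤ log (∑ Z i)` for a probability vector `p` and `Z > 0`.
Paper proof: Jensen for `log` with the weights `p i` at the points `Z i / p i` (`p i > 0`), or
`log t ≤ t - 1` for `t = Z i / (p i * ∑ Z)`.
-/

set_option autoImplicit false

namespace Pool.Agent.Central

open Finset

theorem gibbs {ι : Type} (T : Finset ι) (p Z : ι → ℝ) (hp : ∀ i ∈ T, 0 ≤ p i)
    (hsum : ∑ i ∈ T, p i = 1) (hZ : ∀ i ∈ T, 0 < Z i) :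
    ∑ i ∈ T, Real.negMulLog (p i) + ∑ i ∈ T, p i * Real.log (Z i) ≤ Real.log (∑ i ∈ T, Z i) := by
  have hne : T.Nonempty := by
    rcases T.eq_empty_or_nonempty with h | h
    · subst h
      simp at hsum
    · exact h
  set S : ℝ := ∑ i ∈ T, Z i with hS
  have hSpos : 0 < S := Finset.sum_pos hZ hne
  have key : ∀ i ∈ T, Real.negMulLog (p i) + p i * Real.log (Z i) - p i * Real.log S
      ≤ Z i / S - p i := by
    intro i hi
    rcases (hp i hi).eq_or_lt with h0 | h0
    · rw [← h0]
      have : 0 < Z i / S := div_pos (hZ i hi) hSpos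
      simp
      exact this.le
    · have hx : 0 < Z i / (p i * S) := div_pos (hZ i hi) (mul_pos h0 hSpos)
      have h1 := Real.log_le_sub_one_of_pos hx
      rw [Real.log_div (hZ i hi).ne' (mul_pos h0 hSpos).ne', Real.log_mul h0.ne' hSpos.ne'] at h1
      have h2 := mul_le_mul_of_nonneg_left h1 h0.le
      have h3 : p i * (Z i / (p i * S) - 1) = Z i / S - p i := by
        field_simp
      rw [h3] at h2
      unfold Real.negMulLog
      linarith
  have h4 := Finset.sum_le_sum key
  rw [Finset.sum_sub_distrib, Finset.sum_sub_distrib, Finset.sum_add_distrib, ← Finset.sum_mul,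
    hsum, ← Finset.sum_div, ← hS, div_self hSpos.ne'] at h4
  linarith

end Pool.Agent.Central
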