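import Pool.Agent.Central.Sup

/-!
# Central, module Unc: the uncrossing inequality

`F T = log (cnt T)`.  Let `R` be a relatively lower subset of `D` and let `S j` (`j ∈ J`, weights
`w j ≥ 0` with sum `1`) be relatively lower subsets of `D` such that every `b ∈ D` lies in `S j` with
probability at most `q`.  Then `∑ w j * (F (R ∪ S j) - F R) ≤ q * (F D - F R)`.

Paper proof.  Put `G T = F (R ∪ T) - F R` for relatively lower `T`; `G ∅ = 0`, `G` is monotone
(`cnt_mono`) and supermodular (`cnt_mul` and `R ∪ (T ∩ T') = (R ∪ T) ∩ (R ∪ T')`), `G D = F D - F R`.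
Claim: for every relatively lower subset `E` of `D`,
`∑ j, w j * G (S j ∩ E) ≤ q * G E`.  Induction on `#E`: `E = ∅` is `0 ≤ 0`.  Otherwise let `b` be a maximal
element of `E`, `E' = E.erase b` (relatively lower).  For `b ∉ S j`: `S j ∩ E = S j ∩ E'`.  For `b ∈ S j`:
supermodularity for `S j ∩ E` and `E'` (union `E`, intersection `S j ∩ E'`) gives
`G (S j ∩ E) - G (S j ∩ E') ≤ G E - G E'`.  So
`∑ w j * G (S j ∩ E) ≤ ∑ w j * G (S j ∩ E') + (∑_{b ∈ S j} w j) * (G E - G E')
≤ q * G E' + q * (G E - G E')`.  Take `E = D`.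
-/

set_option autoImplicit false

namespace Pool.Agent.Central

open Finset

variable {P : Type} [PartialOrder P]

theorem unc_RL_union {D S T : Finset P} [DecidableEq P] (hS : RL D S) (hT : RL D T) :
    RL D (S ∪ T) := by
  refine ⟨Finset.union_subset hS.1 hT.1, ?_⟩
  intro b hb c hc hcb
  rw [Finset.mem_union] at hb ⊢
  rcases hb with hb | hb
  · exact Or.inl (hS.2 b hb c hc hcb)
  · exact Or.inr (hT.2 b hb c hc hcb)

theorem unc_RL_inter {D S T : Finset P} [DecidableEq P] (hS : RL D S) (hT : RL D T) :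
    RL D (S ∩ T) := by
  refine ⟨fun x hx => hS.1 (Finset.mem_inter.1 hx).1, ?_⟩
  intro b hb c hc hcb
  rw [Finset.mem_inter] at hb ⊢
  exact ⟨hS.2 b hb.1 c hc hcb, hT.2 b hb.2 c hc hcb⟩

open scoped Classical in
theorem unc_super (D S T : Finset P) (hS : RL D S) (hT : RL D T) :
    Real.log (cnt S) + Real.log (cnt T) ≤ Real.log (cnt (S ∩ T)) + Real.log (cnt (S ∪ T)) := by
  have h1 : (0 : ℝ) < (cnt S : ℝ) := by exact_mod_cast cnt_pos S
  have h2 : (0 : ℝ) < (cnt T : ℝ) := by exact_mod_cast cnt_pos T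
  have h3 : (0 : ℝ) < (cnt (S ∩ T) : ℝ) := by exact_mod_cast cnt_pos (S ∩ T)
  have h4 : (0 : ℝ) < (cnt (S ∪ T) : ℝ) := by exact_mod_cast cnt_pos (S ∪ T)
  rw [← Real.log_mul h1.ne' h2.ne', ← Real.log_mul h3.ne' h4.ne']
  apply Real.log_le_log (mul_pos h1 h2)
  have := cnt_mul D S T hS hT
  exact_mod_cast this

theorem unc_mono (S T : Finset P) (h : S ⊆ T) :
    Real.log (cnt S) ≤ Real.log (cnt T) := by
  have h1 : (0 : ℝ) < (cnt S : ℝ) := by exact_mod_cast cnt_pos S
  apply Real.log_le_log h1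
  exact_mod_cast cnt_mono S T h

open scoped Classical in
theorem unc_claim {ι : Type} (J : Finset ι) (w : ι → ℝ) (S : ι → Finset P) (D R : Finset P) (q : ℝ)
    (hw : ∀ j ∈ J, 0 ≤ w j) (hS : ∀ j ∈ J, RL D (S j)) (hR : RL D R)
    (hq : ∀ b ∈ D, ∑ j ∈ J.filter (fun j => b ∈ S j), w j ≤ q) (n : ℕ) :
    ∀ E : Finset P, E.card = n → RL D E →
    ∑ j ∈ J, w j * (Real.log (cnt (R ∪ (S j ∩ E))) - Real.log (cnt R)) ≤
      q * (Real.log (cnt (R ∪ E)) - Real.log (cnt R)) := by
  induction n with
  | zero =>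
    intro E hE _
    have hE0 : E = ∅ := Finset.card_eq_zero.1 hE
    subst hE0
    simp
  | succ n ih =>
    intro E hE hRL
    have hne : E.Nonempty := by
      rw [← Finset.card_pos]; omega
    obtain ⟨b, hbmax⟩ := E.exists_maximal hne
    have hbE : b ∈ E := hbmax.1
    have hE' : RL D (E.erase b) := by
      refine ⟨fun x hx => hRL.1 (Finset.mem_of_mem_erase hx), ?_⟩
      intro x hx c hc hcx
      rw [Finset.mem_erase] at hx ⊢
      refine ⟨?_, hRL.2 x hx.2 c hc hcx⟩
      intro hcb
      subst hcb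
      exact hx.1 (le_antisymm (hbmax.2 hx.2 hcx) hcx)
    have hcard : (E.erase b).card = n := by
      rw [Finset.card_erase_of_mem hbE, hE]; rfl
    have ih' := ih (E.erase b) hcard hE'
    have hG : Real.log (cnt (R ∪ E.erase b)) ≤ Real.log (cnt (R ∪ E)) :=
      unc_mono _ _ (Finset.union_subset_union_right (Finset.erase_subset b E))
    have hterm : ∀ j ∈ J, w j * (Real.log (cnt (R ∪ (S j ∩ E))) - Real.log (cnt R)) ≤
        w j * (Real.log (cnt (R ∪ (S j ∩ E.erase b))) - Real.log (cnt R)) +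
        (if b ∈ S j then w j else 0) *
          (Real.log (cnt (R ∪ E)) - Real.log (cnt (R ∪ E.erase b))) := by
      intro j hj
      by_cases hb : b ∈ S j
      · rw [if_pos hb, ← mul_add]
        apply mul_le_mul_of_nonneg_left _ (hw j hj)
        have h1 : RL D (R ∪ (S j ∩ E)) := unc_RL_union hR (unc_RL_inter (hS j hj) hRL)
        have h2 : RL D (R ∪ E.erase b) := unc_RL_union hR hE'
        have h3 := unc_super D _ _ h1 h2
        have h4 : (R ∪ (S j ∩ E)) ∩ (R ∪ E.erase b) = R ∪ (S j ∩ E.erase b) := by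
          ext x
          simp only [Finset.mem_inter, Finset.mem_union, Finset.mem_erase]
          tauto
        have h5 : (R ∪ (S j ∩ E)) ∪ (R ∪ E.erase b) = R ∪ E := by
          ext x
          simp only [Finset.mem_inter, Finset.mem_union, Finset.mem_erase]
          constructor
          · tauto
          · intro hx
            by_cases hxb : x = b
            · subst hxb; tauto
            · tauto
        rw [h4, h5] at h3
        linarith
      · rw [if_neg hb, zero_mul, add_zero]
        have h6 : S j ∩ E = S j ∩ E.erase b := by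
          ext x
          simp only [Finset.mem_inter, Finset.mem_erase]
          constructor
          · rintro ⟨hx1, hx2⟩
            exact ⟨hx1, fun h => hb (h ▸ hx1), hx2⟩
          · tauto
        rw [h6]
    calc ∑ j ∈ J, w j * (Real.log (cnt (R ∪ (S j ∩ E))) - Real.log (cnt R))
        ≤ ∑ j ∈ J, (w j * (Real.log (cnt (R ∪ (S j ∩ E.erase b))) - Real.log (cnt R)) +
          (if b ∈ S j then w j else 0) *
          (Real.log (cnt (R ∪ E)) - Real.log (cnt (R ∪ E.erase b)))) := Finset.sum_le_sum hterm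
      _ = ∑ j ∈ J, w j * (Real.log (cnt (R ∪ (S j ∩ E.erase b))) - Real.log (cnt R)) +
          (∑ j ∈ J.filter (fun j => b ∈ S j), w j) *
          (Real.log (cnt (R ∪ E)) - Real.log (cnt (R ∪ E.erase b))) := by
        rw [Finset.sum_add_distrib, ← Finset.sum_mul, Finset.sum_filter]
      _ ≤ q * (Real.log (cnt (R ∪ E.erase b)) - Real.log (cnt R)) +
          q * (Real.log (cnt (R ∪ E)) - Real.log (cnt (R ∪ E.erase b))) := by
        apply add_le_add ih'
        apply mul_le_mul_of_nonneg_right (hq b (hRL.1 hbE))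
        linarith
      _ = q * (Real.log (cnt (R ∪ E)) - Real.log (cnt R)) := by ring

open scoped Classical in
theorem unc {ι : Type} (J : Finset ι) (w : ι → ℝ) (S : ι → Finset P) (D R : Finset P) (q : ℝ)
    (hw : ∀ j ∈ J, 0 ≤ w j) (hsum : ∑ j ∈ J, w j = 1) (hS : ∀ j ∈ J, RL D (S j)) (hR : RL D R)
    (hq : ∀ b ∈ D, ∑ j ∈ J.filter (fun j => b ∈ S j), w j ≤ q) :
    ∑ j ∈ J, w j * (Real.log (cnt (R ∪ S j)) - Real.log (cnt R)) ≤
      q * (Real.log (cnt D) - Real.log (cnt R)) := by
  have _ := hsum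
  have h := unc_claim J w S D R q hw hS hR hq D.card D rfl ⟨Finset.Subset.refl D, fun _ _ c hc _ => hc⟩
  have h1 : R ∪ D = D := Finset.union_eq_right.2 hR.1
  rw [h1] at h
  refine le_trans (le_of_eq ?_) h
  apply Finset.sum_congr rfl
  intro j hj
  have h2 : S j ∩ D = S j := Finset.inter_eq_left.2 (hS j hj).1
  rw [h2]

end Pool.Agent.Central
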