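import Pool.Agent.Central.Chain
import Pool.Agent.Central.Unc
import Pool.Agent.Central.Comb
import Pool.Agent.Central.Gibbs

/-!
# Central, module Main: every finite poset has an element of balance at least 4/23
-/

set_option autoImplicit false

namespace Pool.Agent.Central

open Finset

variable {P : Type} [PartialOrder P]

theorem up_sub (U : Finset P) : up U ⊆ U.powerset := by
  classical
  unfold up
  exact filter_subset _ _

open scoped Classical in
/-- sums against the union convolution -/
theorem conv_sum (U : Finset P) (p : Finset P → ℝ) (φ : Finset P → ℝ) :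
    ∑ c ∈ U.powerset, conv U p c * φ c =
      ∑ s ∈ U.powerset, ∑ t ∈ U.powerset, p s * p t * φ (s ∪ t) := by
  unfold conv
  rw [← Finset.sum_product']
  have hmaps : ∀ q ∈ U.powerset ×ˢ U.powerset, q.1 ∪ q.2 ∈ U.powerset := by
    intro q hq
    rw [mem_product, mem_powerset, mem_powerset] at hq
    rw [mem_powerset]
    exact union_subset hq.1 hq.2
  rw [← Finset.sum_fiberwise_of_maps_to hmaps (fun q : Finset P × Finset P => p q.1 * p q.2 * φ (q.1 ∪ q.2))]
  refine sum_congr rfl fun c _ => ?_
  rw [sum_mul]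
  refine sum_congr rfl fun q hq => ?_
  rw [(mem_filter.mp hq).2]

open scoped Classical in
/-- the numerical core -/
theorem main_core (U D : Finset P) (p : Finset P → ℝ) (Z : Finset P → ℝ) (N δ : ℝ)
    (hN : 1 < N) (hδ : δ = 4 / 23)
    (hZ : ∀ A, Z A = (cnt (avail D A) : ℝ))
    (hp : ∀ A ∈ up U, p A = Z A / N) (hp0 : ∀ A, A ∉ up U → p A = 0)
    (hsum : ∑ A ∈ up U, Z A = N)
    (hδU : ∀ a ∈ U, ∑ A ∈ U.powerset.filter (fun A => a ∈ A), p A ≤ δ)
    (hδD : ∀ b ∈ D, ∑ A ∈ (up U).filter (fun A => b ∈ avail D A), p A ≤ 2 * δ)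
    (hD : (cnt D : ℝ) ≤ N) (hm : ((mx U).card : ℝ) * Real.log 2 ≤ Real.log N) : False := by
  have hZpos : ∀ A, 0 < Z A := by
    intro A; rw [hZ]; exact_mod_cast cnt_pos _
  have hN0 : 0 < N := by linarith
  have hL : 0 < Real.log N := Real.log_pos hN
  have hpn : ∀ A, 0 ≤ p A := by
    intro A
    by_cases h : A ∈ up U
    · rw [hp A h]; exact (div_pos (hZpos A) hN0).le
    · rw [hp0 A h]
  have hupsub : up U ⊆ U.powerset := filter_subset _ _
  have hsum1 : ∑ A ∈ up U, p A = 1 := by
    rw [sum_congr rfl hp, ← sum_div, hsum]; exact div_self hN0.ne'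
  have hsumU : ∀ φ : Finset P → ℝ, ∑ A ∈ U.powerset, p A * φ A = ∑ A ∈ up U, p A * φ A := by
    intro φ
    refine (sum_subset hupsub fun A _ hA => ?_).symm
    rw [hp0 A hA, zero_mul]
  have hsum1' : ∑ A ∈ U.powerset, p A = 1 := by
    have := hsumU (fun _ => 1)
    simp only [mul_one] at this
    rw [this, hsum1]
  have hch := chain U p δ (by rw [hδ]; norm_num) (by rw [hδ]; norm_num) hpn
    (fun A _ hA => hp0 A hA) hsum1' hδU
  set ν := conv U p with hν
  set F : Finset P → ℝ := fun T => Real.log (cnt T) with hF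
  set η := ent U p with hη
  set Y := ∑ A ∈ up U, p A * F (avail D A) with hY
  -- (1) entropy identity
  have h1 : η + Y = Real.log N := by
    have he : η = ∑ A ∈ up U, Real.negMulLog (p A) := by
      rw [hη]; unfold ent
      refine (sum_subset hupsub fun A _ hA => ?_).symm
      rw [hp0 A hA]; simp
    rw [he, hY, ← sum_add_distrib]
    have : ∀ A ∈ up U, Real.negMulLog (p A) + p A * F (avail D A) = p A * Real.log N := by
      intro A hA
      have hz := hZpos A
      simp only [hF]
      rw [← hZ, hp A hA, Real.negMulLog, Real.log_div hz.ne' hN0.ne']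
      ring
    rw [sum_congr rfl this, ← sum_mul, hsum1, one_mul]
  -- (2) Gibbs for the union
  have hνU : ∀ c ∈ U.powerset, c ∉ up U → ν c = 0 := by
    intro c hc hcu
    rw [hν]; unfold conv
    refine sum_eq_zero fun q hq => ?_
    by_cases hs : q.1 ∈ up U
    · by_cases ht : q.2 ∈ up U
      · exact absurd ((mem_filter.mp hq).2 ▸ up_union U _ _ hs ht) hcu
      · rw [hp0 _ ht, mul_zero]
    · rw [hp0 _ hs, zero_mul]
  have hνn : ∀ c, 0 ≤ ν c := conv_nonneg U p hpn
  have hνφ : ∀ φ : Finset P → ℝ, ∑ c ∈ up U, ν c * φ c =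
      ∑ s ∈ up U, ∑ t ∈ up U, p s * p t * φ (s ∪ t) := by
    intro φ
    have e1 : ∑ c ∈ U.powerset, ν c * φ c = ∑ c ∈ up U, ν c * φ c := by
      refine (sum_subset hupsub fun A hA' hA => ?_).symm
      rw [hνU A hA' hA, zero_mul]
    rw [← e1, hν, conv_sum]
    rw [← sum_subset hupsub (fun s _ hs => ?_)]
    · refine sum_congr rfl fun s _ => ?_
      rw [← sum_subset hupsub (fun t _ ht => ?_)]
      rw [hp0 t ht]; ring
    · refine sum_eq_zero fun t _ => ?_
      rw [hp0 s hs]; ring
  have hν1 : ∑ c ∈ up U, ν c = 1 := by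
    have := hνφ (fun _ => 1)
    simp only [mul_one] at this
    rw [this]
    simp_rw [← mul_sum]
    rw [← sum_mul, hsum1, one_mul]
  have h2 : ent U ν + ∑ s ∈ up U, ∑ t ∈ up U, p s * p t * F (avail D s ∩ avail D t) ≤
      Real.log N := by
    have hg := gibbs (up U) ν Z (fun c _ => hνn c) hν1 (fun c _ => hZpos c)
    rw [hsum] at hg
    have he : ent U ν = ∑ c ∈ up U, Real.negMulLog (ν c) := by
      unfold ent
      refine (sum_subset hupsub fun A hA' hA => ?_).symm
      rw [hνU A hA' hA]; simp
    rw [he]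
    have e2 := hνφ (fun c => Real.log (Z c))
    rw [e2] at hg
    refine le_trans (le_of_eq ?_) hg
    congr 1
    refine sum_congr rfl fun s _ => sum_congr rfl fun t _ => ?_
    simp only [hF]
    rw [hZ, avail_union]
  -- (3) uncrossing
  have hRL : ∀ A, RL D (avail D A) := rl_avail D
  have hunc : ∀ R, RL D R → ∑ j ∈ up U, p j * (F (R ∪ avail D j) - F R) ≤
      2 * δ * (F D - F R) := by
    intro R hR
    exact unc (up U) p (fun j => avail D j) D R (2 * δ) (fun j _ => hpn j) hsum1
      (fun j _ => hRL j) hR hδD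
  have hFD : F D ≤ Real.log N := by
    simp only [hF]
    exact Real.log_le_log (by exact_mod_cast cnt_pos D) hD
  have hY2 : Y ≤ 2 * δ * Real.log N := by
    have h := hunc ∅ (rl_empty D)
    have hc : F (∅ : Finset P) = 0 := by
      simp only [hF]
      have : cnt (∅ : Finset P) = 1 := by
        unfold cnt low
        simp
      rw [this]; simp
    simp only [hc, sub_zero, empty_union] at h
    calc Y ≤ 2 * δ * F D := h
      _ ≤ 2 * δ * Real.log N := by
        apply mul_le_mul_of_nonneg_left hFD
        rw [hδ]; norm_num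
  have h3 : Y - 2 * δ * (F D - Y) ≤
      ∑ s ∈ up U, ∑ t ∈ up U, p s * p t * F (avail D s ∩ avail D t) := by
    have hsup : ∀ s t, F (avail D t) + F (avail D s) - F (avail D t ∪ avail D s) ≤
        F (avail D s ∩ avail D t) := by
      intro s t
      have h := cnt_mul D (avail D s) (avail D t) (hRL s) (hRL t)
      have c1 : (0 : ℝ) < cnt (avail D s) := by exact_mod_cast cnt_pos _
      have c2 : (0 : ℝ) < cnt (avail D t) := by exact_mod_cast cnt_pos _
      have c3 : (0 : ℝ) < cnt (avail D s ∩ avail D t) := by exact_mod_cast cnt_pos _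
      have c4 : (0 : ℝ) < cnt (avail D s ∪ avail D t) := by exact_mod_cast cnt_pos _
      have h' : (cnt (avail D s) : ℝ) * cnt (avail D t) ≤
          cnt (avail D s ∩ avail D t) * cnt (avail D s ∪ avail D t) := by exact_mod_cast h
      have hl := Real.log_le_log (mul_pos c1 c2) h'
      rw [Real.log_mul c1.ne' c2.ne', Real.log_mul c3.ne' c4.ne'] at hl
      simp only [hF]
      rw [union_comm (avail D t) (avail D s)]
      linarith
    have step : ∑ s ∈ up U, ∑ t ∈ up U, p s * p t *
        (F (avail D t) + F (avail D s) - F (avail D t ∪ avail D s)) ≤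
        ∑ s ∈ up U, ∑ t ∈ up U, p s * p t * F (avail D s ∩ avail D t) := by
      refine sum_le_sum fun s _ => sum_le_sum fun t _ => ?_
      exact mul_le_mul_of_nonneg_left (hsup s t) (mul_nonneg (hpn s) (hpn t))
    refine le_trans ?_ step
    have e1 : ∑ s ∈ up U, ∑ t ∈ up U, p s * p t *
        (F (avail D t) + F (avail D s) - F (avail D t ∪ avail D s)) =
        Y - ∑ t ∈ up U, p t * ∑ s ∈ up U, p s * (F (avail D t ∪ avail D s) - F (avail D t)) := by
      have e2 : ∀ s ∈ up U, ∀ t ∈ up U, p s * p t *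
          (F (avail D t) + F (avail D s) - F (avail D t ∪ avail D s)) =
          p t * (p s * F (avail D s)) -
          p t * (p s * (F (avail D t ∪ avail D s) - F (avail D t))) := by
        intro s _ t _; ring
      rw [sum_congr rfl fun s hs => sum_congr rfl fun t ht => e2 s hs t ht]
      rw [sum_comm]
      simp_rw [sum_sub_distrib, ← mul_sum]
      rw [← sum_mul, hsum1, one_mul]
    rw [e1]
    have e3 : ∑ t ∈ up U, p t * ∑ s ∈ up U, p s * (F (avail D t ∪ avail D s) - F (avail D t)) ≤
        ∑ t ∈ up U, p t * (2 * δ * (F D - F (avail D t))) := by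
      refine sum_le_sum fun t _ => ?_
      exact mul_le_mul_of_nonneg_left (hunc _ (hRL t)) (hpn t)
    have e4 : ∑ t ∈ up U, p t * (2 * δ * (F D - F (avail D t))) = 2 * δ * (F D - Y) := by
      have : ∀ t ∈ up U, p t * (2 * δ * (F D - F (avail D t))) =
          2 * δ * F D * p t - 2 * δ * (p t * F (avail D t)) := by
        intro t _; ring
      rw [sum_congr rfl this, sum_sub_distrib, ← mul_sum, ← mul_sum, hsum1]
      ring
    linarith
  -- conclusion
  have hl2 : (0.6931471803 : ℝ) < Real.log 2 := Real.log_two_gt_d9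
  have hδη : ent U ν ≤ (1 + 2 * δ) * η := by
    have : 2 * δ * (F D - Y) ≤ 2 * δ * η := by
      apply mul_le_mul_of_nonneg_left _ (by rw [hδ]; norm_num)
      linarith
    linarith
  subst hδ
  have hη2 : (15 / 23) * Real.log N ≤ η := by linarith
  have hmL : ((mx U).card : ℝ) * 0.6931471803 ≤ Real.log N := by
    refine le_trans ?_ hm
    exact mul_le_mul_of_nonneg_left hl2.le (Nat.cast_nonneg _)
  have hfin : (19 / 23 : ℝ) * (173 / 100) * η - (19 / 23) * (1 / 23) * ((mx U).card : ℝ) ≤
      (31 / 23) * η := by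
    have h := hch.trans hδη
    norm_num at h ⊢
    linarith
  nlinarith

end Pool.Agent.Central
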