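import Pool.Agent.Central.Defs

/-!
# Central, module Num: the numerical inequality

For `0 ≤ x ≤ 1` (natural logarithms, `h = Real.binEntropy`)
`h (x ^ 2) ≥ 1.73 * x * h x - x * (1 - x) / 4`.

Paper proof / numerics.  At `x = 0, 1` both sides are `0`.  For `0 < x < 1` divide by `1 - x`: we need
`K x = 0.27 * x ^ 2 * (- log x) / (1 - x) + (1 - 0.73 x) * (- log (1 - x)) - (1 + x) * log (1 + x) + x / 4 ≥ 0`
(use `log (1 - x ^ 2) = log (1 - x) + log (1 + x)`, `log (x ^ 2) = 2 log x`).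
`K x / x` is `0.25` at `0`, about `0.0044` at its minimum near `x = 0.81`, and tends to infinity at `1`
(`K x / x` is `.16` at `.5`, `.03` at `.7`, `.0044` at `.81`, `.03` at `.9`).
Suggested route: `- log x ≥ 3 * (1 - x ^ 2) / (1 + 4 * x + x ^ 2)` on `(0, 1]` (error `2e-6` at `.82`),
`log (1 + x) ≤ x * (30 + 21 * x + x ^ 2) / (30 + 36 * x + 9 * x ^ 2)` on `[0, 1]` (error `8e-5` at `.82`),
`- log (1 - x) ≥ sum of x ^ n / n for n ≤ 22` (or local Pade bounds on three or four subintervals,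
e.g. `-log (1 - x) = -log c - log ((1 - x) / c)` with a numerical bound of `log c` and
`- log u ≥ 3 * (1 - u ^ 2) / (1 + 4 * u + u ^ 2)` for `u ≤ 1`, `log u ≤ ...` for `u ≥ 1`), and then a polynomial
inequality in one variable, by splitting `[0, 1]` into a few subintervals.
-/

set_option autoImplicit false

namespace Pool.Agent.Central

namespace NumAux

open Real Set

/-- lower bound for `- log x` -/
theorem neg_log_ge {x : ℝ} (h0 : 0 < x) (h1 : x ≤ 1) :
    3 * (1 - x ^ 2) / (1 + 4 * x + x ^ 2) ≤ -Real.log x := by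
  have hden : ∀ y : ℝ, 0 < y → 0 < 1 + 4 * y + y ^ 2 := fun y hy => by positivity
  have hd : ∀ y ∈ Ioi (0 : ℝ), HasDerivAt
      (fun y : ℝ => Real.log y + 3 * (1 - y ^ 2) / (1 + 4 * y + y ^ 2))
      (1 / y + ((3 * (0 - 2 * y)) * (1 + 4 * y + y ^ 2) - 3 * (1 - y ^ 2) * (0 + 4 * 1 + 2 * y)) /
        (1 + 4 * y + y ^ 2) ^ 2) y := by
    intro y hy
    have hy' : (0 : ℝ) < y := hy
    have hsq : HasDerivAt (fun y : ℝ => y ^ 2) (2 * y) y := by
      simpa using hasDerivAt_pow 2 y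
    have hnum : HasDerivAt (fun y : ℝ => 3 * (1 - y ^ 2)) (3 * (0 - 2 * y)) y :=
      ((hasDerivAt_const y (1 : ℝ)).sub hsq).const_mul 3
    have hdn : HasDerivAt (fun y : ℝ => 1 + 4 * y + y ^ 2) (0 + 4 * 1 + 2 * y) y :=
      ((hasDerivAt_const y (1 : ℝ)).add ((hasDerivAt_id y).const_mul 4)).add hsq
    have hlog : HasDerivAt Real.log (1 / y) y := by
      rw [one_div]; exact Real.hasDerivAt_log hy'.ne'
    exact hlog.add (hnum.div hdn (hden y hy').ne')
  have hmono : MonotoneOn (fun y : ℝ => Real.log y + 3 * (1 - y ^ 2) / (1 + 4 * y + y ^ 2))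
      (Ioi 0) := by
    apply monotoneOn_of_deriv_nonneg (convex_Ioi 0)
    · intro y hy
      exact (hd y hy).continuousAt.continuousWithinAt
    · intro y hy
      rw [interior_Ioi] at hy
      exact (hd y hy).differentiableAt.differentiableWithinAt
    · intro y hy
      rw [interior_Ioi] at hy
      rw [(hd y hy).deriv]
      have hy' : (0 : ℝ) < y := hy
      have h2 := hden y hy'
      have h3 : 1 / y + ((3 * (0 - 2 * y)) * (1 + 4 * y + y ^ 2) -
          3 * (1 - y ^ 2) * (0 + 4 * 1 + 2 * y)) / (1 + 4 * y + y ^ 2) ^ 2 =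
          (y - 1) ^ 4 / (y * (1 + 4 * y + y ^ 2) ^ 2) := by
        field_simp
        ring
      rw [h3]
      positivity
  have h4 := hmono (Set.mem_Ioi.2 h0) (Set.mem_Ioi.2 (one_pos : (0:ℝ) < 1)) h1
  simp only [Real.log_one] at h4
  norm_num at h4
  linarith

/-- upper bound for `log (1 + x)` -/
theorem log_one_add_le {x : ℝ} (h0 : 0 ≤ x) :
    Real.log (1 + x) ≤ x * (30 + 21 * x + x ^ 2) / (30 + 36 * x + 9 * x ^ 2) := by
  have hden : ∀ y : ℝ, 0 ≤ y → 0 < 30 + 36 * y + 9 * y ^ 2 := fun y hy => by positivity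
  have hd : ∀ y ∈ Ici (0 : ℝ), HasDerivAt
      (fun y : ℝ => (30 * y + 21 * y ^ 2 + y ^ 3) / (30 + 36 * y + 9 * y ^ 2) - Real.log (1 + y))
      (((30 * 1 + 21 * (2 * y) + 3 * y ^ 2) * (30 + 36 * y + 9 * y ^ 2) -
        (30 * y + 21 * y ^ 2 + y ^ 3) * (0 + 36 * 1 + 9 * (2 * y))) /
        (30 + 36 * y + 9 * y ^ 2) ^ 2 - 1 / (1 + y)) y := by
    intro y hy
    have hy' : (0 : ℝ) ≤ y := hy
    have hsq : HasDerivAt (fun y : ℝ => y ^ 2) (2 * y) y := by
      simpa using hasDerivAt_pow 2 y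
    have hcu : HasDerivAt (fun y : ℝ => y ^ 3) (3 * y ^ 2) y := by
      simpa using hasDerivAt_pow 3 y
    have hnum : HasDerivAt (fun y : ℝ => 30 * y + 21 * y ^ 2 + y ^ 3)
        (30 * 1 + 21 * (2 * y) + 3 * y ^ 2) y :=
      (((hasDerivAt_id y).const_mul 30).add (hsq.const_mul 21)).add hcu
    have hdn : HasDerivAt (fun y : ℝ => 30 + 36 * y + 9 * y ^ 2) (0 + 36 * 1 + 9 * (2 * y)) y :=
      ((hasDerivAt_const y (30 : ℝ)).add ((hasDerivAt_id y).const_mul 36)).add (hsq.const_mul 9)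
    have hlin : HasDerivAt (fun y : ℝ => 1 + y) 1 y := by
      simpa using (hasDerivAt_id y).const_add 1
    have hlog : HasDerivAt (fun y : ℝ => Real.log (1 + y)) (1 / (1 + y)) y :=
      hlin.log (by positivity)
    exact (hnum.div hdn (hden y hy').ne').sub hlog
  have hmono : MonotoneOn (fun y : ℝ =>
      (30 * y + 21 * y ^ 2 + y ^ 3) / (30 + 36 * y + 9 * y ^ 2) - Real.log (1 + y)) (Ici 0) := by
    apply monotoneOn_of_deriv_nonneg (convex_Ici 0)
    · intro y hy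
      exact (hd y hy).continuousAt.continuousWithinAt
    · intro y hy
      exact (hd y (interior_subset hy)).differentiableAt.differentiableWithinAt
    · intro y hy
      have hy1 := interior_subset hy
      rw [(hd y hy1).deriv]
      have hy' : (0 : ℝ) ≤ y := hy1
      have h2 := hden y hy'
      have h3 : ((30 * 1 + 21 * (2 * y) + 3 * y ^ 2) * (30 + 36 * y + 9 * y ^ 2) -
          (30 * y + 21 * y ^ 2 + y ^ 3) * (0 + 36 * 1 + 9 * (2 * y))) /
          (30 + 36 * y + 9 * y ^ 2) ^ 2 - 1 / (1 + y) =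
          9 * y ^ 5 / ((30 + 36 * y + 9 * y ^ 2) ^ 2 * (1 + y)) := by
        have h4 : (1 + y) ≠ 0 := by positivity
        field_simp
        ring
      rw [h3]
      positivity
  have h4 := hmono (Set.mem_Ici.2 (le_refl (0:ℝ))) (Set.mem_Ici.2 h0) h0
  simp only [add_zero, Real.log_one] at h4
  norm_num at h4
  have h5 : x * (30 + 21 * x + x ^ 2) = 30 * x + 21 * x ^ 2 + x ^ 3 := by ring
  rw [h5]
  linarith

/-- the polynomial -/
noncomputable def PP (x c l : ℝ) : ℝ :=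
  81 / 100 * x ^ 2 * (1 + x) * (c ^ 2 + 4 * c * (1 - x) + (1 - x) ^ 2) * (30 + 36 * x + 9 * x ^ 2) +
  (1 - 73 / 100 * x) * (l * (c ^ 2 + 4 * c * (1 - x) + (1 - x) ^ 2) + 3 * (c ^ 2 - (1 - x) ^ 2)) *
    (1 + 4 * x + x ^ 2) * (30 + 36 * x + 9 * x ^ 2) -
  (1 + x) * (x * (30 + 21 * x + x ^ 2)) * (1 + 4 * x + x ^ 2) *
    (c ^ 2 + 4 * c * (1 - x) + (1 - x) ^ 2) +
  1 / 4 * x * (1 + 4 * x + x ^ 2) * (c ^ 2 + 4 * c * (1 - x) + (1 - x) ^ 2) *
    (30 + 36 * x + 9 * x ^ 2)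

theorem P0 (x : ℝ) (h0 : 0 ≤ x) (h1 : x ≤ (1 / 2)) : 0 ≤ PP x 1 0 := by
  have hx : 0 ≤ x := le_trans (by norm_num) h0
  have ha : 0 ≤ x - 0 := sub_nonneg.2 h0
  have hb : 0 ≤ (1 / 2) - x := sub_nonneg.2 h1
  have h : PP x 1 0 = x * (5760 * ((x - 0) ^ 0 * ((1 / 2) - x) ^ 7) +
      (266688 / 5) * ((x - 0) ^ 1 * ((1 / 2) - x) ^ 6) +
      (4732944 / 25) * ((x - 0) ^ 2 * ((1 / 2) - x) ^ 5) +
      (8600256 / 25) * ((x - 0) ^ 3 * ((1 / 2) - x) ^ 4) +
      (8736616 / 25) * ((x - 0) ^ 4 * ((1 / 2) - x) ^ 3) +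
      (4969999 / 25) * ((x - 0) ^ 5 * ((1 / 2) - x) ^ 2) +
      (2919113 / 50) * ((x - 0) ^ 6 * ((1 / 2) - x) ^ 1) +
      (338793 / 50) * ((x - 0) ^ 7 * ((1 / 2) - x) ^ 0)) := by
    unfold PP
    ring
  rw [h]
  positivity

theorem P1 (x : ℝ) (h0 : (1 / 2) ≤ x) (h1 : x ≤ (3 / 4)) : 0 ≤ PP x (1 / 2) (6931471803 / 10000000000) := by
  have hx : 0 ≤ x := le_trans (by norm_num) h0
  have ha : 0 ≤ x - (1 / 2) := sub_nonneg.2 h0
  have hb : 0 ≤ (3 / 4) - x := sub_nonneg.2 h1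
  have h : PP x (1 / 2) (6931471803 / 10000000000) = ((790187547892059 / 976562500) * ((x - (1 / 2)) ^ 0 * ((3 / 4) - x) ^ 8) +
      (3009180470152071 / 488281250) * ((x - (1 / 2)) ^ 1 * ((3 / 4) - x) ^ 7) +
      (155792069151875919 / 7812500000) * ((x - (1 / 2)) ^ 2 * ((3 / 4) - x) ^ 6) +
      (556253652350338513 / 15625000000) * ((x - (1 / 2)) ^ 3 * ((3 / 4) - x) ^ 5) +
      (594518988731877967 / 15625000000) * ((x - (1 / 2)) ^ 4 * ((3 / 4) - x) ^ 4) +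
      (770515250631758063 / 31250000000) * ((x - (1 / 2)) ^ 5 * ((3 / 4) - x) ^ 3) +
      (232981338582967179 / 25000000000) * ((x - (1 / 2)) ^ 6 * ((3 / 4) - x) ^ 2) +
      (461661113551375161 / 250000000000) * ((x - (1 / 2)) ^ 7 * ((3 / 4) - x) ^ 1) +
      (36790276268600451 / 250000000000) * ((x - (1 / 2)) ^ 8 * ((3 / 4) - x) ^ 0)) := by
    unfold PP
    ring
  rw [h]
  positivity

theorem P2 (x : ℝ) (h0 : (3 / 4) ≤ x) (h1 : x ≤ (7 / 8)) : 0 ≤ PP x (1 / 4) (6931471803 / 5000000000) := by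
  have hx : 0 ≤ x := le_trans (by norm_num) h0
  have ha : 0 ≤ x - (3 / 4) := sub_nonneg.2 h0
  have hb : 0 ≤ (7 / 8) - x := sub_nonneg.2 h1
  have h : PP x (1 / 4) (6931471803 / 5000000000) = ((4410249523523181 / 244140625) * ((x - (3 / 4)) ^ 0 * ((7 / 8) - x) ^ 8) +
      (25645729889020671 / 244140625) * ((x - (3 / 4)) ^ 1 * ((7 / 8) - x) ^ 7) +
      (491537817794083653 / 1953125000) * ((x - (3 / 4)) ^ 2 * ((7 / 8) - x) ^ 6) +
      (1279592053814090301 / 3906250000) * ((x - (3 / 4)) ^ 3 * ((7 / 8) - x) ^ 5) +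
      (1080056289192681681 / 3906250000) * ((x - (3 / 4)) ^ 4 * ((7 / 8) - x) ^ 4) +
      (310410664986608191 / 1562500000) * ((x - (3 / 4)) ^ 5 * ((7 / 8) - x) ^ 3) +
      (861918424423586893 / 6250000000) * ((x - (3 / 4)) ^ 6 * ((7 / 8) - x) ^ 2) +
      (839125308764135501 / 12500000000) * ((x - (3 / 4)) ^ 7 * ((7 / 8) - x) ^ 1) +
      (892513874648354679 / 62500000000) * ((x - (3 / 4)) ^ 8 * ((7 / 8) - x) ^ 0)) := by
    unfold PP
    ring
  rw [h]
  positivity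

theorem P3 (x : ℝ) (h0 : (7 / 8) ≤ x) (h1 : x ≤ 1) : 0 ≤ PP x (1 / 8) (20794415409 / 10000000000) := by
  have hx : 0 ≤ x := le_trans (by norm_num) h0
  have ha : 0 ≤ x - (7 / 8) := sub_nonneg.2 h0
  have hb : 0 ≤ 1 - x := sub_nonneg.2 h1
  have h : PP x (1 / 8) (20794415409 / 10000000000) = ((422665419564245547 / 62500000000) * ((x - (7 / 8)) ^ 0 * (1 - x) ^ 8) +
      (470996128086801843 / 6250000000) * ((x - (7 / 8)) ^ 1 * (1 - x) ^ 7) +
      (45828028575509723439 / 125000000000) * ((x - (7 / 8)) ^ 2 * (1 - x) ^ 6) +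
      (124929157595241134401 / 125000000000) * ((x - (7 / 8)) ^ 3 * (1 - x) ^ 5) +
      (25962887350995329919 / 15625000000) * ((x - (7 / 8)) ^ 4 * (1 - x) ^ 4) +
      (3370495784921807049 / 1953125000) * ((x - (7 / 8)) ^ 5 * (1 - x) ^ 3) +
      (53490706110566669 / 48828125) * ((x - (7 / 8)) ^ 6 * (1 - x) ^ 2) +
      (95107767888207744 / 244140625) * ((x - (7 / 8)) ^ 7 * (1 - x) ^ 1) +
      (581509496881536 / 9765625) * ((x - (7 / 8)) ^ 8 * (1 - x) ^ 0)) := by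
    unfold PP
    ring
  rw [h]
  positivity


theorem key {x c l : ℝ} (h0 : 0 < x) (h1 : x < 1) (hc : 0 < c) (hl : l ≤ -Real.log c)
    (hxc : 1 - x ≤ c) (hP : 0 ≤ PP x c l) :
    173 / 100 * x * Real.binEntropy x - x * (1 - x) / 4 ≤ Real.binEntropy (x ^ 2) := by
  have hy : 0 < 1 - x := by linarith
  have hA := neg_log_ge h0 h1.le
  have hU := log_one_add_le h0.le
  have hB : l + 3 * (c ^ 2 - (1 - x) ^ 2) / (c ^ 2 + 4 * c * (1 - x) + (1 - x) ^ 2) ≤
      -Real.log (1 - x) := by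
    have h2 := neg_log_ge (x := (1 - x) / c) (div_pos hy hc) ((div_le_one hc).2 hxc)
    rw [Real.log_div hy.ne' hc.ne'] at h2
    have h3 : 3 * (1 - ((1 - x) / c) ^ 2) / (1 + 4 * ((1 - x) / c) + ((1 - x) / c) ^ 2) =
        3 * (c ^ 2 - (1 - x) ^ 2) / (c ^ 2 + 4 * c * (1 - x) + (1 - x) ^ 2) := by
      have h4 : c ^ 2 + 4 * c * (1 - x) + (1 - x) ^ 2 ≠ 0 := by positivity
      have h5 : 1 + 4 * ((1 - x) / c) + ((1 - x) / c) ^ 2 ≠ 0 := by positivity
      rw [div_eq_div_iff h5 h4]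
      field_simp
    rw [h3] at h2
    linarith
  have hsum : 0 ≤ 27 / 100 * x ^ 2 * (3 * (1 - x ^ 2) / (1 + 4 * x + x ^ 2)) +
      (1 - x) * (1 - 73 / 100 * x) *
        (l + 3 * (c ^ 2 - (1 - x) ^ 2) / (c ^ 2 + 4 * c * (1 - x) + (1 - x) ^ 2)) -
      (1 - x) * (1 + x) * (x * (30 + 21 * x + x ^ 2) / (30 + 36 * x + 9 * x ^ 2)) +
      x * (1 - x) / 4 := by
    have h5 : 27 / 100 * x ^ 2 * (3 * (1 - x ^ 2) / (1 + 4 * x + x ^ 2)) +
      (1 - x) * (1 - 73 / 100 * x) *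
        (l + 3 * (c ^ 2 - (1 - x) ^ 2) / (c ^ 2 + 4 * c * (1 - x) + (1 - x) ^ 2)) -
      (1 - x) * (1 + x) * (x * (30 + 21 * x + x ^ 2) / (30 + 36 * x + 9 * x ^ 2)) +
      x * (1 - x) / 4 = (1 - x) * PP x c l / ((1 + 4 * x + x ^ 2) *
        (c ^ 2 + 4 * c * (1 - x) + (1 - x) ^ 2) * (30 + 36 * x + 9 * x ^ 2)) := by
      have e1 : 1 + 4 * x + x ^ 2 ≠ 0 := by positivity
      have e2 : c ^ 2 + 4 * c * (1 - x) + (1 - x) ^ 2 ≠ 0 := by positivity
      have e3 : 30 + 36 * x + 9 * x ^ 2 ≠ 0 := by positivity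
      unfold PP
      rw [eq_div_iff (by positivity)]
      generalize hD2 : c ^ 2 + 4 * c * (1 - x) + (1 - x) ^ 2 = D2 at e2 ⊢
      field_simp
      ring
    rw [h5]
    positivity
  have hmain : 0 ≤ 27 / 100 * x ^ 2 * (-Real.log x) +
      (1 - x) * (1 - 73 / 100 * x) * (-Real.log (1 - x)) -
      (1 - x) * (1 + x) * Real.log (1 + x) + x * (1 - x) / 4 := by
    have g1 := mul_le_mul_of_nonneg_left hA (show (0 : ℝ) ≤ 27 / 100 * x ^ 2 by positivity)
    have g2 := mul_le_mul_of_nonneg_left hB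
      (show (0 : ℝ) ≤ (1 - x) * (1 - 73 / 100 * x) from
        mul_nonneg hy.le (by linarith))
    have g3 := mul_le_mul_of_nonneg_left hU
      (show (0 : ℝ) ≤ (1 - x) * (1 + x) by positivity)
    linarith
  have hx2 : 1 - x ^ 2 = (1 - x) * (1 + x) := by ring
  unfold Real.binEntropy
  rw [Real.log_inv, Real.log_inv, Real.log_inv, Real.log_inv, Real.log_pow, hx2,
    Real.log_mul hy.ne' (by positivity)]
  push_cast
  nlinarith [hmain]

end NumAux

open NumAux in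
theorem num (x : ℝ) (h0 : 0 ≤ x) (h1 : x ≤ 1) :
    173 / 100 * x * Real.binEntropy x - x * (1 - x) / 4 ≤ Real.binEntropy (x ^ 2) := by
  rcases h0.eq_or_lt with h | h0'
  · subst h; simp
  rcases h1.eq_or_lt with h | h1'
  · subst h; simp
  have hlog2 := Real.log_two_gt_d9
  by_cases c1 : x ≤ 1 / 2
  · exact key h0' h1' one_pos (by simp) (by linarith) (P0 x h0 (by linarith))
  by_cases c2 : x ≤ 3 / 4
  · refine key h0' h1' (c := 1 / 2) (by norm_num) ?_ (by linarith) (P1 x (by linarith) (by linarith))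
    rw [one_div, Real.log_inv]
    linarith
  by_cases c3 : x ≤ 7 / 8
  · refine key h0' h1' (c := 1 / 4) (by norm_num) ?_ (by linarith) (P2 x (by linarith) (by linarith))
    have : (1 / 4 : ℝ) = (2 ^ 2)⁻¹ := by norm_num
    rw [this, Real.log_inv, Real.log_pow]
    push_cast
    linarith
  · refine key h0' h1' (c := 1 / 8) (by norm_num) ?_ (by linarith) (P3 x (by linarith) (by linarith))
    have : (1 / 8 : ℝ) = (2 ^ 3)⁻¹ := by norm_num
    rw [this, Real.log_inv, Real.log_pow]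
    push_cast
    linarith

end Pool.Agent.Central
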