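import Pool.Agent.Central.Num
import Pool.Agent.Central.Conc

/-!
# Central, module PairA: the pair inequality for maximal elements

`g` is a probability vector on `T`, `X s ∈ [0, 1]`, and the mean of `1 - X` is at most `δ`.  Then
`∑ s, ∑ t, g s * g t * h (X s * X t) ≥ (1 - δ) * (1.73 * ∑ s, g s * h (X s) - δ / 4)`.

Paper proof.  By `conc` (for `X s, X t > 0`; if one of them is `0` then the left side below is `0` in
Lean as well, because `h 0 = 0` and division by `0` is `0`)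
`h (X s * X t) ≥ (X t * (h (X s ^ 2) / X s) + X s * (h (X t ^ 2) / X t)) / 2`.
Sum with the weights `g s * g t`: `LHS ≥ m * R`, with `m = ∑ g t * X t` and
`R = ∑ g s * (h (X s ^ 2) / X s)`.  By `num` divided by `X s` (for `X s > 0`; for `X s = 0` it reads
`0 ≥ - 1 / 4`) `h (X s ^ 2) / X s ≥ 1.73 * h (X s) - (1 - X s) / 4`, so
`R ≥ Q := 1.73 * ∑ g s * h (X s) - δ / 4`, and `R ≥ 0`, `m ≥ 1 - δ ≥ 0`.  If `Q ≥ 0` then
`m * R ≥ (1 - δ) * Q`; if `Q < 0` then `LHS ≥ 0 ≥ (1 - δ) * Q`.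
-/

set_option autoImplicit false

namespace Pool.Agent.Central

open Finset

namespace PairAAux

open Real

theorem pt1 {x y : ℝ} (hx : 0 ≤ x) (hx1 : x ≤ 1) (hy : 0 ≤ y) (hy1 : y ≤ 1) :
    (y * (binEntropy (x ^ 2) / x) + x * (binEntropy (y ^ 2) / y)) / 2 ≤ binEntropy (x * y) := by
  rcases hx.eq_or_lt with h | hx'
  · subst h
    simp
  rcases hy.eq_or_lt with h | hy'
  · subst h
    simp
  refine le_trans (le_of_eq ?_) (conc x y hx' hx1 hy' hy1)
  ring

theorem pt2 {x : ℝ} (hx : 0 ≤ x) (hx1 : x ≤ 1) :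
    173 / 100 * binEntropy x - (1 - x) / 4 ≤ binEntropy (x ^ 2) / x := by
  rcases hx.eq_or_lt with h | hx'
  · subst h
    simp
  rw [le_div_iff₀ hx']
  refine le_trans (le_of_eq ?_) (num x hx hx1)
  ring

theorem pt3 {x : ℝ} (hx : 0 ≤ x) (hx1 : x ≤ 1) : 0 ≤ binEntropy (x ^ 2) / x :=
  div_nonneg (binEntropy_nonneg (sq_nonneg x) (by nlinarith)) hx

end PairAAux

open PairAAux in
theorem pairA {ι : Type} (T : Finset ι) (g X : ι → ℝ) (δ : ℝ) (hg : ∀ s ∈ T, 0 ≤ g s)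
    (hsum : ∑ s ∈ T, g s = 1) (hX0 : ∀ s ∈ T, 0 ≤ X s) (hX1 : ∀ s ∈ T, X s ≤ 1)
    (hδ : ∑ s ∈ T, g s * (1 - X s) ≤ δ) (hδ1 : δ ≤ 1) :
    (1 - δ) * (173 / 100 * ∑ s ∈ T, g s * Real.binEntropy (X s) - δ / 4) ≤
      ∑ s ∈ T, ∑ t ∈ T, g s * g t * Real.binEntropy (X s * X t) := by
  set r : ι → ℝ := fun s => Real.binEntropy (X s ^ 2) / X s with hr
  set R : ℝ := ∑ s ∈ T, g s * r s with hR
  set m : ℝ := ∑ s ∈ T, g s * X s with hm
  have hR0 : 0 ≤ R := sum_nonneg fun s hs => mul_nonneg (hg s hs) (pt3 (hX0 s hs) (hX1 s hs))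
  have hm1 : 1 - δ ≤ m := by
    have e : ∑ s ∈ T, g s * (1 - X s) = 1 - m := by
      have h2 : ∑ s ∈ T, g s * (1 - X s) = ∑ s ∈ T, g s - ∑ s ∈ T, g s * X s := by
        rw [← sum_sub_distrib]
        exact sum_congr rfl fun s _ => by ring
      rw [h2, hsum, hm]
    rw [e] at hδ
    linarith
  have hRQ : 173 / 100 * ∑ s ∈ T, g s * Real.binEntropy (X s) - δ / 4 ≤ R := by
    have h1 : ∑ s ∈ T, g s * (173 / 100 * Real.binEntropy (X s) - (1 - X s) / 4) ≤ R :=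
      sum_le_sum fun s hs => mul_le_mul_of_nonneg_left (pt2 (hX0 s hs) (hX1 s hs)) (hg s hs)
    have e : ∑ s ∈ T, g s * (173 / 100 * Real.binEntropy (X s) - (1 - X s) / 4) =
        173 / 100 * ∑ s ∈ T, g s * Real.binEntropy (X s) - (∑ s ∈ T, g s * (1 - X s)) / 4 := by
      rw [mul_sum, sum_div, ← sum_sub_distrib]
      exact sum_congr rfl fun s _ => by ring
    rw [e] at h1
    linarith
  have hmain : m * R ≤ ∑ s ∈ T, ∑ t ∈ T, g s * g t * Real.binEntropy (X s * X t) := by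
    have e : m * R = ∑ s ∈ T, ∑ t ∈ T, g s * g t * ((X t * r s + X s * r t) / 2) := by
      have e1 : ∑ s ∈ T, ∑ t ∈ T, g s * g t * (X t * r s) = R * m := by
        rw [hR, hm, sum_mul_sum]
        exact sum_congr rfl fun s _ => sum_congr rfl fun t _ => by ring
      have e2 : ∑ s ∈ T, ∑ t ∈ T, g s * g t * (X s * r t) = m * R := by
        rw [hR, hm, sum_mul_sum]
        exact sum_congr rfl fun s _ => sum_congr rfl fun t _ => by ring
      have e3 : ∑ s ∈ T, ∑ t ∈ T, g s * g t * ((X t * r s + X s * r t) / 2) =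
          (∑ s ∈ T, ∑ t ∈ T, g s * g t * (X t * r s) +
            ∑ s ∈ T, ∑ t ∈ T, g s * g t * (X s * r t)) / 2 := by
        rw [← sum_add_distrib, sum_div]
        refine sum_congr rfl fun s _ => ?_
        rw [← sum_add_distrib, sum_div]
        exact sum_congr rfl fun t _ => by ring
      rw [e3, e1, e2]
      ring
    rw [e]
    exact sum_le_sum fun s hs => sum_le_sum fun t ht =>
      mul_le_mul_of_nonneg_left (pt1 (hX0 s hs) (hX1 s hs) (hX0 t ht) (hX1 t ht))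
        (mul_nonneg (hg s hs) (hg t ht))
  refine le_trans ?_ hmain
  set Q : ℝ := 173 / 100 * ∑ s ∈ T, g s * Real.binEntropy (X s) - δ / 4 with hQ
  by_cases hQ0 : 0 ≤ Q
  · exact mul_le_mul hm1 hRQ hQ0 (le_trans (by linarith) hm1)
  · have h1 : (1 - δ) * Q ≤ 0 :=
      mul_nonpos_of_nonneg_of_nonpos (by linarith) (not_le.1 hQ0).le
    exact h1.trans (mul_nonneg (le_trans (by linarith) hm1) hR0)

end Pool.Agent.Central
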