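import Pool.Agent.Central.Defs

/-!
# Central, module Sup: monotonicity and supermodularity of the number of ideals

Paper proof.
`cnt_pos`: the empty set is in `low T`.
`cnt_mono`: for `S ⊆ T` the map `B ↦ {t ∈ T | ∃ b ∈ B, t ≤ b}` from `low S` to `low T` is injective
(intersect with `S` to recover `B`).
`cnt_mul`: Daykin inequality `Finset.le_card_infs_mul_card_sups` (Mathlib, four functions theorem) for
the two families `low S`, `low T` of finsets: `B ∩ B' ∈ low (S ∩ T)`, `B ∪ B' ∈ low (S ∪ T)` when `S`, `T`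
are relatively lower subsets of `D`.
-/

set_option autoImplicit false

namespace Pool.Agent.Central

open Finset

variable {P : Type} [PartialOrder P]

theorem cnt_pos (T : Finset P) : 0 < cnt T := by
  classical
  unfold cnt
  apply Finset.card_pos.2
  refine ⟨∅, ?_⟩
  unfold low
  simp

open scoped Classical in
theorem mem_low' {T B : Finset P} :
    B ∈ low T ↔ B ⊆ T ∧ ∀ b ∈ B, ∀ c ∈ T, c ≤ b → c ∈ B := by
  unfold low
  simp [Finset.mem_filter, Finset.mem_powerset]

theorem cnt_mono (S T : Finset P) (h : S ⊆ T) : cnt S ≤ cnt T := by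
  classical
  unfold cnt
  refine Finset.card_le_card_of_injOn (fun B => T.filter (fun t => ∃ b ∈ B, t ≤ b)) ?_ ?_
  · intro B hB
    have hB' := mem_low'.1 (Finset.mem_coe.1 hB)
    apply Finset.mem_coe.2
    rw [mem_low']
    refine ⟨Finset.filter_subset _ _, ?_⟩
    intro b hb c hc hcb
    rw [Finset.mem_filter] at hb ⊢
    obtain ⟨_, b', hb', hbb'⟩ := hb
    exact ⟨hc, b', hb', hcb.trans hbb'⟩
  · intro B hB B' hB' heq
    have h1 := mem_low'.1 (Finset.mem_coe.1 hB)
    have h2 := mem_low'.1 (Finset.mem_coe.1 hB')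
    have key : ∀ B B' : Finset P, (B ⊆ S ∧ ∀ b ∈ B, ∀ c ∈ S, c ≤ b → c ∈ B) →
        (B' ⊆ S ∧ ∀ b ∈ B', ∀ c ∈ S, c ≤ b → c ∈ B') →
        T.filter (fun t => ∃ b ∈ B, t ≤ b) = T.filter (fun t => ∃ b ∈ B', t ≤ b) → B ⊆ B' := by
      intro B B' h1 h2 heq x hx
      have hxS := h1.1 hx
      have hx1 : x ∈ T.filter (fun t => ∃ b ∈ B, t ≤ b) :=
        Finset.mem_filter.2 ⟨h hxS, x, hx, le_refl x⟩
      rw [heq, Finset.mem_filter] at hx1
      obtain ⟨_, b, hb, hxb⟩ := hx1
      exact h2.2 b hb x hxS hxb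
    exact Finset.Subset.antisymm (key B B' h1 h2 heq) (key B' B h2 h1 heq.symm)

open scoped Classical in
theorem cnt_mul (D S T : Finset P) (hS : RL D S) (hT : RL D T) :
    cnt S * cnt T ≤ cnt (S ∩ T) * cnt (S ∪ T) := by
  unfold cnt
  refine (Finset.le_card_infs_mul_card_sups (low S) (low T)).trans ?_
  apply Nat.mul_le_mul
  · apply Finset.card_le_card
    intro C hC
    obtain ⟨B, hB, B', hB', rfl⟩ := Finset.mem_infs.1 hC
    rw [mem_low'] at hB hB' ⊢
    refine ⟨?_, ?_⟩
    · intro x hx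
      rw [Finset.inf_eq_inter, Finset.mem_inter] at hx
      exact Finset.mem_inter.2 ⟨hB.1 hx.1, hB'.1 hx.2⟩
    · intro b hb c hc hcb
      rw [Finset.inf_eq_inter, Finset.mem_inter] at hb ⊢
      rw [Finset.mem_inter] at hc
      exact ⟨hB.2 b hb.1 c hc.1 hcb, hB'.2 b hb.2 c hc.2 hcb⟩
  · apply Finset.card_le_card
    intro C hC
    obtain ⟨B, hB, B', hB', rfl⟩ := Finset.mem_sups.1 hC
    rw [mem_low'] at hB hB' ⊢
    refine ⟨?_, ?_⟩
    · intro x hx
      rw [Finset.sup_eq_union, Finset.mem_union] at hx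
      rcases hx with hx | hx
      · exact Finset.mem_union_left _ (hB.1 hx)
      · exact Finset.mem_union_right _ (hB'.1 hx)
    · intro b hb c hc hcb
      rw [Finset.sup_eq_union, Finset.mem_union] at hb ⊢
      rw [Finset.mem_union] at hc
      have hcD : c ∈ D := by
        rcases hc with hc | hc
        · exact hS.1 hc
        · exact hT.1 hc
      rcases hb with hb | hb
      · have hcS : c ∈ S := hS.2 b (hB.1 hb) c hcD hcb
        exact Or.inl (hB.2 b hb c hcS hcb)
      · have hcT : c ∈ T := hT.2 b (hB'.1 hb) c hcD hcb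
        exact Or.inr (hB'.2 b hb c hcT hcb)

end Pool.Agent.Central
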